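import Mathlib

set_option autoImplicit false

/-!
Project UM (helper709): arbitrary products of second countable locally compact minimal groups are
minimal.  Statements of the leaves.
-/

open Filter Topology

universe u v

namespace Pool.Agent.N709.UM

/-- pseudonorm on a group -/
structure PN {G : Type u} [Group G] (N : G → ℝ) : Prop where
  one : N 1 = 0
  inv : ∀ g, N g⁻¹ = N g
  mul : ∀ g h, N (g * h) ≤ N g + N h

/-- asymptotically central ultrafilter -/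
def AC {G : Type u} [Group G] [TopologicalSpace G] (F : Ultrafilter G) : Prop :=
  ∀ C : Set G, IsCompact C → ∀ U ∈ 𝓝 (1 : G),
    {x : G | ∀ c ∈ C, x * c * x⁻¹ * c⁻¹ ∈ U ∧ x⁻¹ * c * x * c⁻¹ ∈ U} ∈ F

/-- every asymptotically central ultrafilter converges -/
def Star (G : Type u) [Group G] [TopologicalSpace G] : Prop :=
  ∀ F : Ultrafilter G, AC F → ∃ z : G, (F : Filter G) ≤ 𝓝 z

/-- no strictly coarser Hausdorff group topology -/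
def Min (G : Type u) [Group G] [t : TopologicalSpace G] : Prop :=
  ∀ s : TopologicalSpace G, @IsTopologicalGroup G s _ → @T2Space G s → t ≤ s → s = t

/-- Leaf NRM -/
def Nrm : Prop := ∀ (G : Type u) [Group G] [TopologicalSpace G] [IsTopologicalGroup G] [T2Space G]
  [LocallyCompactSpace G] [FirstCountableTopology G],
  ∃ ρ : G → ℝ, PN ρ ∧ Continuous ρ ∧ ∀ U ∈ 𝓝 (1 : G), ∃ r > 0, ∀ g, ρ g < r → g ∈ U

/-- Leaf SEL -/
def Sel : Prop := ∀ (G : Type u) [Group G] [TopologicalSpace G] [IsTopologicalGroup G] [T2Space G]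
  [LocallyCompactSpace G] (ρ : G → ℝ), PN ρ → Continuous ρ →
  ∀ F : Ultrafilter G, AC F → (¬ ∃ z : G, (F : Filter G) ≤ 𝓝 z) →
  ∀ D : Set G, IsCompact D → ∀ t : ℝ, 0 < t → ∀ k : ℕ,
  ∃ y : G, y ∉ D ∧ (∀ c ∈ D, ρ (y * c * y⁻¹ * c⁻¹) < t ∧ ρ (y⁻¹ * c * y * c⁻¹) < t) ∧
    ∀ M : ℕ, 1 ≤ M → M ≤ k → (y ^ M ∉ D ∧ (y ^ M)⁻¹ ∉ D) ∨ ρ (y ^ M) < t

/-- Leaf TOP -/
def Top : Prop := ∀ (G : Type u) [Group G] [TopologicalSpace G] [IsTopologicalGroup G], Min G →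
  ∀ y : ℕ → G, (∀ g, Tendsto (fun k => g * y k * g⁻¹ * (y k)⁻¹) atTop (𝓝 1)) →
  (∀ z : G, z ≠ 1 → ∃ N : G → ℝ, PN N ∧ Continuous N ∧ Tendsto (fun k => N (y k)) atTop (𝓝 0) ∧
    0 < N z) →
  Tendsto y atTop (𝓝 1)

/-- Leaf PRD -/
def Prd : Prop := ∀ (I : Type v) (G : I → Type u) [∀ i, Group (G i)]
  [∀ i, TopologicalSpace (G i)] [∀ i, IsTopologicalGroup (G i)] [∀ i, T2Space (G i)],
  (∀ i, Min (G i)) → (∀ i, Star (G i)) → Min (∀ i, G i)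

/-- the value of a word in elements of `G` and letters `y j ^ (± 1)` -/
def ev {G : Type u} [Group G] (y : ℕ → G) : List (G ⊕ (ℕ × Bool)) → G
  | [] => 1
  | (Sum.inl u) :: w => u * ev y w
  | (Sum.inr (j, s)) :: w => (if s then y j else (y j)⁻¹) * ev y w

/-- the weight of a word -/
def wt {G : Type u} [Group G] (ρ : G → ℝ) (ε : ℕ → ℝ) : List (G ⊕ (ℕ × Bool)) → ℝ
  | [] => 0
  | (Sum.inl u) :: w => ρ u + wt ρ ε w
  | (Sum.inr (j, _)) :: w => ε j + wt ρ ε w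

/-- the part of the weight that comes from elements of `G` -/
def rw {G : Type u} [Group G] (ρ : G → ℝ) (w : List (G ⊕ (ℕ × Bool))) : ℝ := wt ρ (fun _ => 0) w

/-- the number of letters with index at most `j` -/
def cnt {G : Type u} (j : ℕ) : List (G ⊕ (ℕ × Bool)) → ℕ
  | [] => 0
  | (Sum.inl _) :: w => cnt j w
  | (Sum.inr (i, _)) :: w => (if i ≤ j then 1 else 0) + cnt j w

/-- all letters have an index less than `k` -/
def Bel {G : Type u} (k : ℕ) (w : List (G ⊕ (ℕ × Bool))) : Prop :=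
  ∀ j s, (Sum.inr (j, s) : G ⊕ (ℕ × Bool)) ∈ w → j < k

/-- Leaf CMP -/
def Cmp : Prop := ∀ (G : Type u) [Group G] [TopologicalSpace G] [IsTopologicalGroup G]
  (ρ : G → ℝ), PN ρ → ∀ r : ℝ, IsCompact (closure {g : G | ρ g < r}) → ∀ (y : ℕ → G) (k : ℕ)
  (C : Set G), IsCompact C →
  ∃ D : Set G, IsCompact D ∧ ∀ w : List (G ⊕ (ℕ × Bool)), Bel k w → cnt k w ≤ k → rw ρ w < r →
    ∀ c ∈ C, ev y w * c ∈ D

/-- Leaf NWD: the norm defined by words -/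
def Nwd : Prop := ∀ (G : Type u) [Group G] (ρ : G → ℝ), PN ρ → ∀ ε : ℕ → ℝ, (∀ k, 0 < ε k) →
  ∀ y : ℕ → G, ∀ (z : G) (δ : ℝ), (∀ w : List (G ⊕ (ℕ × Bool)), ev y w = z → δ ≤ wt ρ ε w) →
  ∃ N : G → ℝ, PN N ∧ (∀ g, N g ≤ ρ g) ∧ (∀ k, N (y k) ≤ ε k) ∧ δ ≤ N z

/-- Leaf REM: removal of the letters of largest index -/
def Rem : Prop := ∀ (G : Type u) [Group G] (ρ : G → ℝ), PN ρ → ∀ (r t : ℝ), 0 ≤ t →
  ∀ (y : ℕ → G) (k : ℕ) (D : Set G),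
  (∀ w : List (G ⊕ (ℕ × Bool)), Bel k w → cnt k w ≤ k → rw ρ w < r → ev y w ∈ D) →
  (∀ c ∈ D, ρ (y k * c * (y k)⁻¹ * c⁻¹) ≤ t ∧ ρ ((y k)⁻¹ * c * y k * c⁻¹) ≤ t) →
  ∀ w : List (G ⊕ (ℕ × Bool)), Bel (k + 1) w → cnt k w ≤ k → rw ρ w + (k : ℝ) * t < r →
  ∃ (w' : List (G ⊕ (ℕ × Bool))) (M : ℤ), Bel k w' ∧ (∀ j, j < k → cnt j w' ≤ cnt j w) ∧
    cnt k w' + M.natAbs ≤ cnt k w ∧
    rw ρ w' ≤ rw ρ w + (cnt k w : ℝ) * t ∧ ev y w = ev y w' * y k ^ M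

/-- Leaf LOW: words of small weight do not represent `z` -/
def Low : Prop := ∀ (G : Type u) [Group G] (ρ : G → ℝ), PN ρ → ∀ (r : ℝ), 0 < r →
  ∀ (y : ℕ → G) (D : ℕ → Set G) (t : ℕ → ℝ), (∀ k, 0 ≤ t k) →
  (∀ k : ℕ, ((k : ℝ) + 1) * t k ≤ (1 / 4 : ℝ) ^ k) →
  ∀ (z : G) (K : ℕ),
  (∀ k, K ≤ k → ∀ w : List (G ⊕ (ℕ × Bool)), Bel k w → cnt k w ≤ k → rw ρ w < r →
    ev y w ∈ D k ∧ ev y w * z ∈ D k) →
  (∀ k, ∀ c ∈ D k, ρ (y k * c * (y k)⁻¹ * c⁻¹) ≤ t k ∧ ρ ((y k)⁻¹ * c * y k * c⁻¹) ≤ t k) →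
  (∀ k, ∀ M : ℕ, 1 ≤ M → M ≤ k →
    (y k ^ M ∉ D k ∧ (y k ^ M)⁻¹ ∉ D k) ∨ ρ (y k ^ M) ≤ t k) →
  ∀ w : List (G ⊕ (ℕ × Bool)), (∀ j, j < K → cnt j w = 0) → (∀ j, K ≤ j → cnt j w ≤ j - 1) →
    rw ρ w + 2 * (1 / 4 : ℝ) ^ K < r → rw ρ w + 2 * (1 / 4 : ℝ) ^ K < ρ z → ev y w ≠ z

/-- Leaf QUO -/
def Quo : Prop := ∀ (I : Type v) (G : I → Type u) [∀ i, Group (G i)]
  [∀ i, TopologicalSpace (G i)] [∀ i, IsTopologicalGroup (G i)] [∀ i, T2Space (G i)],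
  Min (∀ i, G i ⧸ Subgroup.center (G i)) → Min ((∀ i, G i) ⧸ Subgroup.center (∀ i, G i))

/-- the inner automorphisms -/
abbrev Inn (G : Type u) [Group G] : Subgroup (MulAut G) := (MulAut.conj : G →* MulAut G).range

/-- the neighbourhood filter of the identity of `Inn G` in the Birkhoff topology -/
def birk (G : Type u) [Group G] [TopologicalSpace G] : Filter (Inn G) :=
  ⨅ (C : Set G) (_ : IsCompact C) (U : Set G) (_ : U ∈ 𝓝 (1 : G)),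
    𝓟 {f : Inn G | ∀ g ∈ C, (f : MulAut G) g * g⁻¹ ∈ U ∧ ((f⁻¹ : Inn G) : MulAut G) g * g⁻¹ ∈ U}

/-- Leaf INN -/
def InnL : Prop := ∀ (G : Type u) [Group G] [TopologicalSpace G] [IsTopologicalGroup G]
  [T2Space G] [LocallyCompactSpace G] [SecondCountableTopology G]
  (s : TopologicalSpace (Inn G)), @IsTopologicalGroup (Inn G) s _ → @nhds (Inn G) s 1 = birk G →
  @T2Space (Inn G) s ∧ @FirstCountableTopology (Inn G) s ∧ @SigmaCompactSpace (Inn G) s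

end Pool.Agent.N709.UM
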