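import Pool.Agent.N709.UM.Star
import Pool.Agent.N707.UMNRM
import Pool.Agent.N507.UMSEL
import Pool.Agent.N187.UMTOP
import Pool.Agent.N720.UMCMP
import Pool.Agent.N499.UMNWD
import Pool.Agent.N157.UMREM
import Pool.Agent.N933.UMLow
import Pool.Agent.N942.UMQUO
import Pool.Agent.N850.UMINN

set_option autoImplicit false

/-!
Project UM (helper709): products of minimal groups.
-/

open Filter Topology

universe u v w

namespace Pool.Agent.N709.UM

/-- asymptotically central ultrafilters converge in a minimal locally compact, first countable,
sigma-compact group -/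
theorem star (G : Type u) [Group G] [TopologicalSpace G] [IsTopologicalGroup G] [T2Space G]
    [LocallyCompactSpace G] [FirstCountableTopology G] [SigmaCompactSpace G] (hmin : Min G) :
    Star G :=
  star_of Pool.Agent.N707.UMNRM.nrm Pool.Agent.N507.UMSEL.sel Pool.Agent.N187.UMTOP.top
    Pool.Agent.N720.UM.cmp Pool.Agent.N499.UM.nwd
    (Pool.Agent.N933.UMLow.low Pool.Agent.N157.UMREM.rem) G hmin

end Pool.Agent.N709.UM
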