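import Pool.Agent.N709.UM.Stm

set_option autoImplicit false

/-!
Project UM2 (helper709): factors which are second countable, non-archimedean and Raikov complete.
Statements of the leaves.
-/

open Filter Topology

universe u v w

namespace Pool.Agent.N709.UM

/-- Raikov completeness: Cauchy filters of the two-sided uniformity converge -/
def RC (G : Type u) [Group G] [TopologicalSpace G] : Prop :=
  ∀ F : Filter G, F.NeBot →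
    (∀ U ∈ 𝓝 (1 : G), ∃ A ∈ F, ∀ x ∈ A, ∀ y ∈ A, x⁻¹ * y ∈ U ∧ y * x⁻¹ ∈ U) →
    ∃ z : G, F ≤ 𝓝 z

/-- non-archimedean: open subgroups form a neighbourhood base of `1` -/
def NA (G : Type u) [Group G] [TopologicalSpace G] : Prop :=
  ∀ U ∈ 𝓝 (1 : G), ∃ V : Subgroup G, IsOpen (V : Set G) ∧ (V : Set G) ⊆ U

/-- `ρ` is a continuous pseudonorm generating the neighbourhoods of `1` -/
structure Gen {G : Type u} [Group G] [TopologicalSpace G] (ρ : G → ℝ) : Prop where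
  pn : PN ρ
  cont : Continuous ρ
  gen : ∀ U ∈ 𝓝 (1 : G), ∃ r > 0, ∀ g, ρ g < r → g ∈ U

/-- asymptotic invariance of `ρ` and asymptotic centrality -/
structure AI {G : Type u} [Group G] (ρ : G → ℝ) (F : Ultrafilter G) : Prop where
  inv : ∀ t > 0, {x : G | ∀ c, ρ (x * c * x⁻¹) ≤ ρ c + t ∧ ρ (x⁻¹ * c * x) ≤ ρ c + t} ∈ F
  com : ∀ t > 0, ∀ c, {x : G | ρ (x * c * x⁻¹ * c⁻¹) < t ∧ ρ (x⁻¹ * c * x * c⁻¹) < t} ∈ F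

/-- Leaf BKP: the Birkhoff-Kakutani theorem for pseudonorms -/
def Bkp : Prop := ∀ (P : Type w) [Group P] [TopologicalSpace P] [IsTopologicalGroup P],
  ∀ V ∈ 𝓝 (1 : P), ∃ N : P → ℝ, PN N ∧ Continuous N ∧ (∀ g, N g ≤ 1) ∧ ∀ g, N g < 1 → g ∈ V

/-- Leaf PRA -/
def Pra : Prop := ∀ (I : Type v) (G : I → Type u) [∀ i, Group (G i)]
  [∀ i, TopologicalSpace (G i)] [∀ i, IsTopologicalGroup (G i)]
  (P' : Type w) [Group P'] [TopologicalSpace P'] [IsTopologicalGroup P'] [T2Space P'],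
  (∀ i, Min (G i)) → ∀ (e : (∀ i, G i) ≃* P'), Continuous e → ∀ i,
  FirstCountableTopology (G i) →
  ∃ ρ : G i → ℝ, Gen ρ ∧ ∀ W : Ultrafilter P', (W : Filter P') ≤ 𝓝 1 →
    AI ρ (W.map fun x => e.symm x i)

/-- Leaf CAU -/
def Cau : Prop := ∀ (G : Type u) [Group G] [TopologicalSpace G] [IsTopologicalGroup G],
  RC G → NA G → ∀ ρ : G → ℝ, Gen ρ → ∀ F : Ultrafilter G, AI ρ F →
  (¬ ∃ z : G, (F : Filter G) ≤ 𝓝 z) →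
  ∃ U : Subgroup G, IsOpen (U : Set G) ∧ {a : G | {b : G | a * b⁻¹ ∉ U} ∈ F} ∈ F

/-- Leaf PWC -/
def Pwc : Prop := ∀ (G : Type u) [Group G] [TopologicalSpace G] [IsTopologicalGroup G]
  (ρ : G → ℝ), Gen ρ → ∀ F : Ultrafilter G, AI ρ F → ∀ (M : ℕ) (a : G),
  Tendsto (fun b : G => (a * b⁻¹) ^ M * b ^ M) F (𝓝 (a ^ M))

/-- Leaf SEL2 (given PWC) -/
def Sel2 : Prop := ∀ (G : Type u) [Group G] [TopologicalSpace G] [IsTopologicalGroup G]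
  (ρ : G → ℝ), Gen ρ → ∀ F : Ultrafilter G, AI ρ F →
  ∀ U0 : Subgroup G, {a : G | {b : G | a * b⁻¹ ∉ U0} ∈ F} ∈ F →
  ∀ D : Set G, D.Finite → ∀ S : Set (Subgroup G × G × G), S.Finite →
  (∀ s ∈ S, IsOpen (s.1 : Set G) ∧ s.2.1 * s.2.2 ∉ s.1) → ∀ t : ℝ, 0 < t → ∀ k : ℕ,
  ∃ y : G, y ∉ U0 ∧ (∀ c, ρ (y * c * y⁻¹) ≤ ρ c + t ∧ ρ (y⁻¹ * c * y) ≤ ρ c + t) ∧
    (∀ c ∈ D, ρ (y * c * y⁻¹ * c⁻¹) < t ∧ ρ (y⁻¹ * c * y * c⁻¹) < t) ∧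
    ∀ s ∈ S, ∀ M : ℕ, 1 ≤ M → M ≤ k → s.2.1 * y ^ M * s.2.2 ∉ s.1

/-- all the elements of `G` in the word are small -/
def Sm {G : Type u} (ρ : G → ℝ) (r : ℝ) (w : List (G ⊕ (ℕ × Bool))) : Prop :=
  ∀ u : G, (Sum.inl u : G ⊕ (ℕ × Bool)) ∈ w → ρ u < r

/-- Leaf RM2: removal of the letters of largest index by conjugation -/
def Rm2 : Prop := ∀ (G : Type u) [Group G] (ρ : G → ℝ), PN ρ → ∀ (r t : ℝ), 0 ≤ t →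
  ∀ (y : ℕ → G) (k : ℕ),
  (∀ c, ρ (y k * c * (y k)⁻¹) ≤ ρ c + t ∧ ρ ((y k)⁻¹ * c * y k) ≤ ρ c + t) →
  (∀ j, j < k → ∀ c, (c = y j ∨ c = (y j)⁻¹) →
    ρ (y k * c * (y k)⁻¹ * c⁻¹) < r ∧ ρ ((y k)⁻¹ * c * y k * c⁻¹) < r) →
  ∀ w : List (G ⊕ (ℕ × Bool)), Bel (k + 1) w → Sm ρ r w →
  ∃ (w' : List (G ⊕ (ℕ × Bool))) (M : ℤ), Bel k w' ∧ (∀ j, j < k → cnt j w' ≤ cnt j w) ∧
    M.natAbs ≤ cnt k w ∧ Sm ρ (r + (cnt k w : ℝ) * t) w' ∧ ev y w = ev y w' * y k ^ M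

/-- products of powers `y j ^ (M j)`, `|M j| ≤ j` -/
def pp {G : Type u} [Group G] (y : ℕ → G) : ℕ → Set G
  | 0 => {1}
  | k + 1 => {g | ∃ h ∈ pp y k, ∃ M : ℤ, M.natAbs ≤ k ∧ g = h * y k ^ M}

/-- Leaf LW2 (given RM2): short words do not represent `z` -/
def Lw2 : Prop := ∀ (G : Type u) [Group G] (ρ : G → ℝ), PN ρ → ∀ (U : Subgroup G) (y : ℕ → G)
  (t : ℕ → ℝ) (K : ℕ) (r : ℝ) (z q : G), 0 < r → (∀ k, 0 ≤ t k) →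
  (∀ k : ℕ, (k : ℝ) * t k ≤ (1 / 4 : ℝ) ^ k) →
  (∀ g, ρ g < r + 2 * (1 / 4 : ℝ) ^ K → g ∈ U) →
  (∀ k, K ≤ k → ∀ c, ρ (y k * c * (y k)⁻¹) ≤ ρ c + t k ∧ ρ ((y k)⁻¹ * c * y k) ≤ ρ c + t k) →
  (∀ k, K ≤ k → ∀ j, j < k → ∀ c, (c = y j ∨ c = (y j)⁻¹) →
    ρ (y k * c * (y k)⁻¹ * c⁻¹) < r ∧ ρ ((y k)⁻¹ * c * y k * c⁻¹) < r) →
  z ∉ U → z * q ∈ U →
  (∀ k, K ≤ k → ∀ h ∈ pp y k, h * q ∉ U → ∀ M : ℤ, M.natAbs ≤ k → h * y k ^ M * q ∉ U) →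
  ∀ w : List (G ⊕ (ℕ × Bool)), (∀ j, j < K → cnt j w = 0) → (∀ j, K ≤ j → cnt j w ≤ j - 1) →
    Sm ρ r w → ev y w ≠ z

/-- Leaf CJ: convergence of the commutators with all elements -/
def Cj : Prop := ∀ (G : Type u) [Group G] [TopologicalSpace G] [IsTopologicalGroup G]
  (ρ : G → ℝ), Gen ρ → ∀ (y : ℕ → G) (t : ℕ → ℝ), Tendsto t atTop (𝓝 0) →
  (∀ k c, ρ (y k * c * (y k)⁻¹) ≤ ρ c + t k) →
  ∀ q : ℕ → G, DenseRange q → (∀ i k, i ≤ k → ρ (y k * q i * (y k)⁻¹ * (q i)⁻¹) < t k) →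
  ∀ g, Tendsto (fun k => g * y k * g⁻¹ * (y k)⁻¹) atTop (𝓝 1)

end Pool.Agent.N709.UM
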