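import Pool.Agent.N709.UM.Prod
import Pool.Agent.N709.UM.Stm2
import Pool.Agent.N136.UM2BKP
import Pool.Agent.N225.UM2PRA

set_option autoImplicit false

/-!
Project UM2 (helper709): products of minimal groups, general form with the third kind of factors.
-/

open Filter Topology

universe u v w

namespace Pool.Agent.N709.UM

/-- ultrafilters which are asymptotically central and leave a generating pseudonorm asymptotically
invariant converge -/
def Star' (G : Type u) [Group G] [TopologicalSpace G] : Prop :=
  FirstCountableTopology G ∧ ∀ ρ : G → ℝ, Gen ρ → ∀ F : Ultrafilter G, AI ρ F →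
    ∃ z : G, (F : Filter G) ≤ 𝓝 z

section core

variable {I : Type v} {G : I → Type u} [∀ i, Group (G i)]
  [∀ i, TopologicalSpace (G i)] [∀ i, IsTopologicalGroup (G i)]
  {P' : Type w} [Group P'] [TopologicalSpace P'] [IsTopologicalGroup P'] [T2Space P']

/-- the inverse is continuous -/
theorem core2 (hM : ∀ i, Min (G i))
    (hS : ∀ i, Star (G i) ∨
      (IsCompact (Subgroup.center (G i) : Set (G i)) ∧ Min (G i ⧸ Subgroup.center (G i))) ∨
      Star' (G i))
    (e : (∀ i, G i) ≃* P') (he : Continuous e) : Continuous e.symm := by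
  rw [continuous_pi_iff]
  intro i
  have hcont : Continuous ((Pi.evalMonoidHom G i).comp e.symm.toMonoidHom) := by
    apply continuous_of_continuousAt_one
    rw [ContinuousAt, map_one, Filter.tendsto_iff_ultrafilter]
    intro W hW
    have h1 : ∀ j, ∃ z : G j, ((W.map fun x => e.symm x j : Ultrafilter (G j)) :
        Filter (G j)) ≤ 𝓝 z := by
      intro j
      rcases hS j with h | ⟨hc, hq⟩ | ⟨hfc, h⟩
      · exact h _ (Pool.Agent.N691.UM.ac_factor hM e he j W hW)
      · have h2 := (cont_quot e he j hq).tendsto 1
        exact conv_of_quot (Subgroup.center (G j)) hc (W.map fun x => e.symm x j) _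
          (h2.mono_left hW)
      · obtain ⟨ρ, hρ, hAI⟩ := Pool.Agent.N225.UM2PRA.pra Pool.Agent.N136.UM2.bkp I G P' hM e he j
          hfc
        exact h ρ hρ _ (hAI W hW)
    choose z hz using h1
    have h2 : Tendsto (fun x => e.symm x) (W : Filter P') (𝓝 z) := by
      rw [tendsto_pi_nhds]
      intro j
      exact hz j
    have h3 : Tendsto (fun x => e (e.symm x)) (W : Filter P') (𝓝 (e z)) :=
      (he.tendsto z).comp h2
    simp only [MulEquiv.apply_symm_apply] at h3
    have h4 : e z = 1 := tendsto_nhds_unique h3 hW
    have h5 : z = 1 := by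
      apply e.injective
      rw [h4, map_one]
    have h6 := hz i
    rw [h5] at h6
    exact h6
  exact hcont

end core

/-- products -/
theorem prod_min2 (I : Type v) (G : I → Type u) [∀ i, Group (G i)]
    [∀ i, TopologicalSpace (G i)] [∀ i, IsTopologicalGroup (G i)]
    (hM : ∀ i, Min (G i)) (hS : ∀ i, Star (G i) ∨
      (IsCompact (Subgroup.center (G i) : Set (G i)) ∧ Min (G i ⧸ Subgroup.center (G i))) ∨
      Star' (G i)) :
    Min (∀ i, G i) := by
  intro s hs ht hle
  apply le_antisymm _ hle
  have h := @core2 I G _ _ _ (∀ i, G i) _ s hs ht hM hS (MulEquiv.refl _)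
    (continuous_id_iff_le.2 hle)
  exact continuous_id_iff_le.1 h

end Pool.Agent.N709.UM
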