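import Pool.Agent.N709.UM.Star2
import Pool.Agent.N709.UM.Prod2
import Pool.Agent.N219.UM2SEL2
import Pool.Agent.N618.UM2CJ
import Pool.Agent.N199.UM2CAU
import Pool.Agent.N99.UM2PWC
import Pool.Agent.N466.UM2RM2
import Pool.Agent.N75.UM2LW2

set_option autoImplicit false

/-!
Project UM2 (helper709): non-archimedean factors.
-/

open Filter Topology

universe u v w

namespace Pool.Agent.N709.UM

/-- `Star'` for minimal, second countable, non-archimedean, Raikov complete groups -/
theorem star2 (G : Type u) [Group G] [TopologicalSpace G] [IsTopologicalGroup G] [T2Space G]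
    [SecondCountableTopology G] (hrc : RC G) (hna : NA G) (hmin : Min G) : Star' G :=
  ⟨inferInstance, fun ρ hρ F hF => star2_of Pool.Agent.N199.UM2CAU.cau
    (Pool.Agent.N219.UM2SEL2.sel2 Pool.Agent.N99.UM2PWC.pwc)
    (Pool.Agent.N75.UM2LW2.lw2 Pool.Agent.N466.UM2RM2.rm2) Pool.Agent.N618.UM2.cj
    Pool.Agent.N187.UMTOP.top Pool.Agent.N499.UM.nwd G hrc hna hmin ρ hρ F hF⟩

end Pool.Agent.N709.UM
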