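import Pool.Agent.N709.UM.Stm3
import Pool.Agent.N466.UM2RM2

set_option autoImplicit false

open Filter Topology

universe u v

namespace Pool.Agent.N709.UM.RM3

open Pool.Agent.N709.UM Pool.Agent.N466.UM2RM2

theorem rw_nil {G : Type u} [Group G] (ρ : G → ℝ) : rw ρ ([] : List (G ⊕ (ℕ × Bool))) = 0 := rfl

theorem rw_inl {G : Type u} [Group G] (ρ : G → ℝ) (v : G) (w : List (G ⊕ (ℕ × Bool))) :
    rw ρ (Sum.inl v :: w) = ρ v + rw ρ w := rfl

theorem rw_inr {G : Type u} [Group G] (ρ : G → ℝ) (p : ℕ × Bool)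
    (w : List (G ⊕ (ℕ × Bool))) : rw ρ (Sum.inr p :: w) = rw ρ w := by
  rcases p with ⟨j, s⟩
  show 0 + rw ρ w = rw ρ w
  rw [zero_add]

/-- conjugation of a word -/
theorem conj {G : Type u} [Group G] (ρ : G → ℝ) (hρ : PN ρ) (t : ℝ) (ht : 0 ≤ t)
    (y : ℕ → G) (k : ℕ) (g : G) (h1 : ∀ c, ρ (g * c * g⁻¹) ≤ ρ c + t)
    (h2 : ∀ j, j < k → ∀ c, (c = y j ∨ c = (y j)⁻¹) → ρ (g * c * g⁻¹ * c⁻¹) ≤ t)
    (w : List (G ⊕ (ℕ × Bool))) :
    ∀ v : G, Bel k w → ∃ w1 : List (G ⊕ (ℕ × Bool)), Bel k w1 ∧ (∀ j, cnt j w1 = cnt j w) ∧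
      rw ρ w1 ≤ ρ v + rw ρ w + (2 * (cnt k w : ℝ) + 1) * t ∧
      ev y w1 = g * (v * ev y w) * g⁻¹ := by
  induction w with
  | nil =>
    intro v _
    refine ⟨[Sum.inl (g * v * g⁻¹)], ?_, fun j => rfl, ?_, ?_⟩
    · intro j s hj
      simp at hj
    · rw [rw_inl, rw_nil]
      have := h1 v
      simp only [cnt]
      push_cast
      linarith
    · simp [ev]
  | cons a w ih =>
    intro v hB
    rcases a with u | ⟨j, s⟩
    · obtain ⟨w1, b1, b2, b3, b4⟩ := ih (v * u) (bel_tail hB)
      refine ⟨w1, b1, ?_, ?_, ?_⟩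
      · intro i
        rw [cnt_inl, b2 i]
      · rw [rw_inl, cnt_inl]
        have := hρ.mul v u
        linarith
      · rw [ev_inl, b4, mul_assoc v u]
    · obtain ⟨w1, b1, b2, b3, b4⟩ := ih 1 (bel_tail hB)
      have hj : j < k := hB j s List.mem_cons_self
      have hc : (if s then y j else (y j)⁻¹) = y j ∨ (if s then y j else (y j)⁻¹) = (y j)⁻¹ := by
        cases s <;> simp
      have hc2 := h2 j hj _ hc
      refine ⟨Sum.inl (g * v * g⁻¹) :: Sum.inl (g * (if s then y j else (y j)⁻¹) * g⁻¹ *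
        (if s then y j else (y j)⁻¹)⁻¹) :: Sum.inr (j, s) :: w1,
        bel_inl (bel_inl (bel_inr hj b1)), ?_, ?_, ?_⟩
      · intro i
        rw [cnt_inl, cnt_inl, cnt_inr, cnt_inr, b2 i]
      · rw [rw_inl, rw_inl, rw_inr, rw_inr, cnt_inr, if_pos hj.le]
        have h3 := h1 v
        rw [hρ.one] at b3
        push_cast
        linarith
      · rw [ev_inl, ev_inl, ev_inr, ev_inr, b4]
        generalize (if s then y j else (y j)⁻¹) = c
        group

theorem rm3 : Rm3.{u} := by
  intro G _ ρ hρ t ht y k h1 h2 w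
  induction w with
  | nil =>
    intro _ _
    refine ⟨[], 0, ?_, fun j => le_rfl, ?_, ?_, ?_⟩
    · intro j s hj
      cases hj
    · simp [cnt]
    · simp [cnt, rw_nil]
    · simp [ev]
  | cons a w ih =>
    intro hB hk
    have hkw : cnt k w ≤ k := by
      rcases a with u | ⟨j, s⟩
      · rwa [cnt_inl] at hk
      · rw [cnt_inr] at hk
        omega
    obtain ⟨w', M, b1, b2, b3, b4, b5⟩ := ih (bel_tail hB) hkw
    have hkt : 0 ≤ (2 * (k : ℝ) + 1) * t := mul_nonneg (by positivity) ht
    rcases a with u | ⟨j, s⟩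
    · refine ⟨Sum.inl u :: w', M, bel_inl b1, ?_, ?_, ?_, ?_⟩
      · intro i
        rw [cnt_inl, cnt_inl]
        exact b2 i
      · rw [cnt_inl]
        exact b3
      · rw [cnt_inl, rw_inl, rw_inl]
        linarith
      · rw [ev_inl, ev_inl, b5, mul_assoc]
    · have hj : j < k + 1 := hB j s List.mem_cons_self
      have hjk : j ≤ k := Nat.lt_succ_iff.1 hj
      rcases lt_or_eq_of_le hjk with hlt | heq
      · refine ⟨Sum.inr (j, s) :: w', M, bel_inr hlt b1, ?_, ?_, ?_, ?_⟩
        · intro i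
          rw [cnt_inr, cnt_inr]
          have := b2 i
          omega
        · rw [cnt_inr, if_pos hjk]
          omega
        · rw [cnt_inr, if_pos hjk, rw_inr, rw_inr]
          push_cast
          linarith
        · rw [ev_inr, ev_inr, b5, mul_assoc]
      · subst heq
        have hcw : (cnt j w' : ℝ) ≤ j := by
          have : cnt j w' ≤ j := (b2 j).trans hkw
          exact_mod_cast this
        have key : ∃ (w1 : List (G ⊕ (ℕ × Bool))) (M' : ℤ), Bel j w1 ∧
            (∀ i, cnt i w1 = cnt i w') ∧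
            rw ρ w1 ≤ rw ρ w' + (2 * (cnt j w' : ℝ) + 1) * t ∧
            M'.natAbs ≤ M.natAbs + 1 ∧
            (if s then y j else (y j)⁻¹) * (ev y w' * y j ^ M) = ev y w1 * y j ^ M' := by
          rcases s with _ | _
          · obtain ⟨w1, c1, c2, c3, c4⟩ := conj ρ hρ t ht y j
              (y j)⁻¹ (fun c => by rw [inv_inv]; exact (h1 c).2)
              (fun i hi c hc => by rw [inv_inv]; exact (h2 i hi c hc).2) w' 1 b1
            rw [hρ.one, zero_add] at c3
            refine ⟨w1, M - 1, c1, c2, c3, by omega, ?_⟩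
            simp only [Bool.false_eq_true, if_false]
            rw [c4, zpow_sub_one, ← (Commute.zpow_right (Commute.refl (y j)) M).inv_left.eq]
            group
          · obtain ⟨w1, c1, c2, c3, c4⟩ := conj ρ hρ t ht y j
              (y j) (fun c => (h1 c).1)
              (fun i hi c hc => (h2 i hi c hc).1) w' 1 b1
            rw [hρ.one, zero_add] at c3
            refine ⟨w1, M + 1, c1, c2, c3, by omega, ?_⟩
            simp only [if_true]
            rw [c4, zpow_add_one, ← (Commute.zpow_right (Commute.refl (y j)) M).eq]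
            group
        obtain ⟨w1, M', c1, c2, c3, c4, c5⟩ := key
        refine ⟨w1, M', c1, ?_, ?_, ?_, ?_⟩
        · intro i
          rw [cnt_inr, c2 i]
          have := b2 i
          omega
        · rw [cnt_inr, if_pos le_rfl]
          omega
        · rw [cnt_inr, if_pos le_rfl, rw_inr]
          push_cast
          have h7 : (2 * (cnt j w' : ℝ) + 1) * t ≤ (2 * (j : ℝ) + 1) * t := by
            apply mul_le_mul_of_nonneg_right _ ht
            linarith
          linarith
        · rw [ev_inr, b5, c5]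

end Pool.Agent.N709.UM.RM3
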