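import Pool.Agent.N709.UM.Star3
import Pool.Agent.N709.UM.Main2
import Pool.Agent.N915.UM3NL3
import Pool.Agent.N521.UM3CAU3
import Pool.Agent.N564.UM3LW3
import Pool.Agent.N709.UM.Rm3
import Pool.Agent.N530.UM3SEL3

set_option autoImplicit false

/-!
Project UM3 (helper709).
-/

open Filter Topology

universe u v w

namespace Pool.Agent.N709.UM

/-- `Star'` for minimal, second countable, Raikov complete groups with arbitrarily small subgroups
`U` such that `G ⧸ U` is locally compact -/
theorem star3 (G : Type u) [Group G] [TopologicalSpace G] [IsTopologicalGroup G] [T2Space G]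
    [SecondCountableTopology G] (hrc : RC G) (hsc : SC G) (hmin : Min G) : Star' G :=
  ⟨inferInstance, fun ρ hρ F hF => star3_of Pool.Agent.N521.UM3CAU3.cau3
    (Pool.Agent.N530.UM3SEL3.sel3 Pool.Agent.N99.UM2PWC.pwc Pool.Agent.N915.UM3NL3.nl3)
    (Pool.Agent.N564.UM3LW3.lw3 Pool.Agent.N709.UM.RM3.rm3) Pool.Agent.N618.UM2.cj
    Pool.Agent.N187.UMTOP.top Pool.Agent.N499.UM.nwd G hrc hsc hmin ρ hρ F hF⟩

end Pool.Agent.N709.UM
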