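import Pool.Agent.N709.UM.Main
import Pool.Agent.N691.UMPRD
import Pool.Agent.R508.DACMain

set_option autoImplicit false

/-!
Project UM (helper709): products of minimal groups, general form.
-/

open Filter Topology

universe u v w

namespace Pool.Agent.N709.UM

/-- an ultrafilter whose image in the quotient by a compact subgroup converges is convergent -/
theorem conv_of_quot {A : Type u} [Group A] [TopologicalSpace A] [IsTopologicalGroup A]
    (Z : Subgroup A) (hZ : IsCompact (Z : Set A)) (F : Ultrafilter A) (y : A ⧸ Z)
    (hF : Tendsto (fun a : A => (a : A ⧸ Z)) F (𝓝 y)) : ∃ z : A, (F : Filter A) ≤ 𝓝 z := by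
  have hp : IsProperMap (fun a : A => (a : A ⧸ Z)) := by
    rw [isProperMap_iff_isClosedMap_and_compact_fibers]
    refine ⟨continuous_quotient_mk', QuotientGroup.isClosedMap_coe hZ, ?_⟩
    intro q
    obtain ⟨a, rfl⟩ := QuotientGroup.mk_surjective q
    have h1 : (fun b : A => (b : A ⧸ Z)) ⁻¹' {(a : A ⧸ Z)} = (fun b => a * b) '' (Z : Set A) := by
      ext b
      simp only [Set.mem_preimage, Set.mem_singleton_iff, Set.mem_image]
      constructor
      · intro h
        refine ⟨a⁻¹ * b, QuotientGroup.eq.1 h.symm, by group⟩
      · rintro ⟨c, hc, rfl⟩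
        exact (QuotientGroup.eq.2 (by simpa using hc)).symm
    rw [h1]
    exact hZ.image (continuous_const.mul continuous_id)
  obtain ⟨x, -, hx⟩ := (isProperMap_iff_ultrafilter.1 hp).2 hF
  exact ⟨x, hx⟩

section core

variable {I : Type v} {G : I → Type u} [∀ i, Group (G i)]
  [∀ i, TopologicalSpace (G i)] [∀ i, IsTopologicalGroup (G i)]
  {P' : Type w} [Group P'] [TopologicalSpace P'] [IsTopologicalGroup P'] [T2Space P']

open Classical in
/-- the projection to a factor modulo its centre is continuous -/
theorem cont_quot (e : (∀ i, G i) ≃* P') (he : Continuous e) (i : I)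
    (hq : Min (G i ⧸ Subgroup.center (G i))) :
    Continuous fun x : P' => ((e.symm x i : G i) : G i ⧸ Subgroup.center (G i)) := by
  let Z := Subgroup.center (G i)
  let q : P' →* G i ⧸ Z :=
    (QuotientGroup.mk' Z).comp ((Pi.evalMonoidHom G i).comp e.symm.toMonoidHom)
  have hqx : ∀ x, q x = ((e.symm x i : G i) : G i ⧸ Z) := fun x => rfl
  have hqs : Function.Surjective q := by
    intro y
    obtain ⟨a, rfl⟩ := QuotientGroup.mk_surjective y
    refine ⟨e (Pi.mulSingle i a), ?_⟩
    rw [hqx]
    simp
  have hs : Continuous fun g : G i => e (Pi.mulSingle i g : ∀ i, G i) :=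
    he.comp (continuous_mulSingle i)
  -- the kernel is closed
  have hker : (q.ker : Set P') = ⋂ g : G i, {x : P' | e (Pi.mulSingle i g) * x =
      x * e (Pi.mulSingle i g)} := by
    ext x
    simp only [SetLike.mem_coe, MonoidHom.mem_ker, Set.mem_iInter, Set.mem_ofPred_eq]
    rw [hqx, QuotientGroup.eq_one_iff, Subgroup.mem_center_iff]
    constructor
    · intro h g
      apply e.symm.injective
      rw [map_mul, map_mul, MulEquiv.symm_apply_apply]
      funext j
      by_cases hj : j = i
      · subst hj
        simpa using h g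
      · simp [Pi.mulSingle_eq_of_ne hj]
    · intro h g
      have h1 := congrArg (fun y => e.symm y i) (h g)
      simpa using h1
  have hclosed : IsClosed (q.ker : Set P') := by
    rw [hker]
    exact isClosed_iInter fun g => isClosed_eq (continuous_const.mul continuous_id)
      (continuous_id.mul continuous_const)
  let E : (P' ⧸ q.ker) ≃* (G i ⧸ Z) := QuotientGroup.quotientKerEquivOfSurjective q hqs
  have hE : ∀ x : P', E (x : P' ⧸ q.ker) = q x := fun x => rfl
  have hE' : ∀ x : P', E.symm (q x) = (x : P' ⧸ q.ker) := fun x => by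
    rw [← hE, MulEquiv.symm_apply_apply]
  have hT : @T2Space (P' ⧸ q.ker) _ := by
    have : IsClosed (q.ker : Set P') := hclosed
    infer_instance
  have hg : @IsTopologicalGroup (G i ⧸ Z) (TopologicalSpace.induced E.symm inferInstance) _ :=
    topologicalGroup_induced E.symm
  have ht : @T2Space (G i ⧸ Z) (TopologicalSpace.induced E.symm inferInstance) := by
    let _ : TopologicalSpace (G i ⧸ Z) := TopologicalSpace.induced E.symm inferInstance
    exact T2Space.of_injective_continuous E.symm.injective continuous_induced_dom
  have hcE : Continuous (E.symm : G i ⧸ Z → P' ⧸ q.ker) := by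
    rw [(QuotientGroup.isQuotientMap_mk Z).continuous_iff]
    have h2 : (⇑E.symm ∘ (QuotientGroup.mk : G i → G i ⧸ Z)) =
        fun g : G i => ((e (Pi.mulSingle i g) : P') : P' ⧸ q.ker) := by
      funext g
      rw [← hE', hqx]
      simp
    rw [h2]
    exact continuous_quotient_mk'.comp hs
  have heq := hq (TopologicalSpace.induced E.symm inferInstance) hg ht
    (continuous_iff_le_induced.1 hcE)
  have h3 : @Continuous P' (G i ⧸ Z) _ (TopologicalSpace.induced E.symm inferInstance) q := by
    rw [continuous_induced_rng]
    have h4 : (⇑E.symm ∘ q) = fun x : P' => (x : P' ⧸ q.ker) := funext hE'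
    rw [h4]
    exact continuous_quotient_mk'
  rw [heq] at h3
  exact h3

/-- the inverse is continuous -/
theorem core (hM : ∀ i, Min (G i))
    (hS : ∀ i, Star (G i) ∨
      (IsCompact (Subgroup.center (G i) : Set (G i)) ∧ Min (G i ⧸ Subgroup.center (G i))))
    (e : (∀ i, G i) ≃* P') (he : Continuous e) : Continuous e.symm := by
  rw [continuous_pi_iff]
  intro i
  have hcont : Continuous ((Pi.evalMonoidHom G i).comp e.symm.toMonoidHom) := by
    apply continuous_of_continuousAt_one
    rw [ContinuousAt, map_one, Filter.tendsto_iff_ultrafilter]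
    intro W hW
    have h1 : ∀ j, ∃ z : G j, ((W.map fun x => e.symm x j : Ultrafilter (G j)) :
        Filter (G j)) ≤ 𝓝 z := by
      intro j
      rcases hS j with h | ⟨hc, hq⟩
      · exact h _ (Pool.Agent.N691.UM.ac_factor hM e he j W hW)
      · have h2 := (cont_quot e he j hq).tendsto 1
        exact conv_of_quot (Subgroup.center (G j)) hc (W.map fun x => e.symm x j) _
          (h2.mono_left hW)
    choose z hz using h1
    have h2 : Tendsto (fun x => e.symm x) (W : Filter P') (𝓝 z) := by
      rw [tendsto_pi_nhds]
      intro j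
      exact hz j
    have h3 : Tendsto (fun x => e (e.symm x)) (W : Filter P') (𝓝 (e z)) :=
      (he.tendsto z).comp h2
    simp only [MulEquiv.apply_symm_apply] at h3
    have h4 : e z = 1 := tendsto_nhds_unique h3 hW
    have h5 : z = 1 := by
      apply e.injective
      rw [h4, map_one]
    have h6 := hz i
    rw [h5] at h6
    exact h6
  exact hcont

end core

/-- products -/
theorem prod_min (I : Type v) (G : I → Type u) [∀ i, Group (G i)]
    [∀ i, TopologicalSpace (G i)] [∀ i, IsTopologicalGroup (G i)]
    (hM : ∀ i, Min (G i)) (hS : ∀ i, Star (G i) ∨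
      (IsCompact (Subgroup.center (G i) : Set (G i)) ∧ Min (G i ⧸ Subgroup.center (G i)))) :
    Min (∀ i, G i) := by
  intro s hs ht hle
  apply le_antisymm _ hle
  have h := @core I G _ _ _ (∀ i, G i) _ s hs ht hM hS (MulEquiv.refl _)
    (continuous_id_iff_le.2 hle)
  exact continuous_id_iff_le.1 h

end Pool.Agent.N709.UM
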