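import Pool.Agent.N709.UM.Stm

set_option autoImplicit false

/-!
Project UM (helper709): assembly.  A locally compact first countable sigma-compact minimal group
satisfies `Star`.
-/

open Filter Topology

universe u v

namespace Pool.Agent.N709.UM

theorem PN.nonneg {G : Type u} [Group G] {N : G → ℝ} (h : PN N) (g : G) : 0 ≤ N g := by
  have h1 := h.mul g g⁻¹
  rw [mul_inv_cancel, h.one, h.inv] at h1
  linarith

theorem ev_congr {G : Type u} [Group G] {y y' : ℕ → G} {k : ℕ} (h : ∀ j, j < k → y j = y' j) :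
    ∀ w : List (G ⊕ (ℕ × Bool)), Bel k w → ev y w = ev y' w := by
  intro w
  induction w with
  | nil => intro _; rfl
  | cons a w ih =>
    intro hb
    have hb' : Bel k w := fun j s hj => hb j s (List.mem_cons_of_mem _ hj)
    have := ih hb'
    rcases a with u | ⟨j, s⟩
    · simp only [ev, this]
    · have hj : j < k := hb j s (by simp)
      simp only [ev, this, h j hj]

theorem rw_le_wt {G : Type u} [Group G] {ρ : G → ℝ} {ε : ℕ → ℝ} (hε : ∀ j, 0 ≤ ε j) :
    ∀ w : List (G ⊕ (ℕ × Bool)), rw ρ w ≤ wt ρ ε w := by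
  intro w
  induction w with
  | nil => simp [rw, wt]
  | cons a w ih =>
    rcases a with u | ⟨j, s⟩
    · simp only [rw, wt] at ih ⊢
      linarith
    · simp only [rw, wt] at ih ⊢
      have := hε j
      linarith

theorem cnt_mul_le_wt {G : Type u} [Group G] {ρ : G → ℝ} (hρ : ∀ g, 0 ≤ ρ g) {ε : ℕ → ℝ}
    (hε : ∀ j, 0 ≤ ε j) {j : ℕ} {e : ℝ} (he : ∀ i, i ≤ j → e ≤ ε i) :
    ∀ w : List (G ⊕ (ℕ × Bool)), (cnt j w : ℝ) * e ≤ wt ρ ε w := by
  intro w
  induction w with
  | nil => simp [cnt, wt]
  | cons a w ih =>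
    rcases a with u | ⟨i, s⟩
    · simp only [cnt, wt]
      have := hρ u
      linarith
    · simp only [cnt, wt]
      by_cases hi : i ≤ j
      · have := he i hi
        rw [if_pos hi]
        push_cast
        linarith
      · rw [if_neg hi]
        have := hε i
        push_cast
        linarith

theorem PN.continuous_of_le {G : Type u} [Group G] [TopologicalSpace G] [IsTopologicalGroup G]
    {N ρ : G → ℝ} (hN : PN N) (hρ : PN ρ) (hρc : Continuous ρ) (hle : ∀ g, N g ≤ ρ g) :
    Continuous N := by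
  rw [continuous_iff_continuousAt]
  intro h
  have hlim : Tendsto (fun g => ρ (g * h⁻¹)) (𝓝 h) (𝓝 0) := by
    have h1 : Continuous fun g => ρ (g * h⁻¹) := hρc.comp (continuous_id.mul continuous_const)
    have h2 := h1.tendsto h
    simpa [hρ.one] using h2
  have key : ∀ g, |N g - N h| ≤ ρ (g * h⁻¹) := by
    intro g
    have h1 := hN.mul (g * h⁻¹) h
    have h2 := hN.mul (g * h⁻¹)⁻¹ g
    rw [hN.inv] at h2
    have e1 : g * h⁻¹ * h = g := by group
    have e2 : (g * h⁻¹)⁻¹ * g = h := by group
    rw [e1] at h1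
    rw [e2] at h2
    have h3 := hle (g * h⁻¹)
    rw [abs_le]
    constructor <;> linarith
  have : Tendsto (fun g => N g - N h) (𝓝 h) (𝓝 0) :=
    squeeze_zero_norm (fun g => by simpa using key g) hlim
  have h4 := this.add_const (N h)
  have h5 : Tendsto N (𝓝 h) (𝓝 (N h)) := by simpa using h4
  exact h5

/-- the choice of the sequence -/
theorem exists_seq {G : Type u} (D : ℕ → (ℕ → G) → Set G) (one : G)
    (P : ℕ → G → Set G → Prop) (h : ∀ k y, ∃ x, P k x (D k y)) :
    ∃ (y : ℕ → G) (s : ℕ → ℕ → G), (∀ k j, j < k → s k j = y j) ∧ ∀ k, P k (y k) (D k (s k)) := by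
  classical
  choose Y hY using h
  let s : ℕ → ℕ → G := fun k => Nat.rec (fun _ => one) (fun k f => Function.update f k (Y k f)) k
  have hs : ∀ k, s (k + 1) = Function.update (s k) k (Y k (s k)) := fun k => rfl
  let y : ℕ → G := fun k => Y k (s k)
  refine ⟨y, s, ?_, fun k => hY k (s k)⟩
  intro k
  induction k with
  | zero => intro j hj; exact absurd hj (Nat.not_lt_zero j)
  | succ k ih =>
    intro j hj
    rw [hs]
    rcases Nat.lt_succ_iff_lt_or_eq.mp hj with h1 | h1
    · rw [Function.update_of_ne (Nat.ne_of_lt h1)]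
      exact ih j h1
    · subst h1
      rw [Function.update_self]

theorem star_of (hN : Nrm.{u}) (hS : Sel.{u}) (hT : Top.{u}) (hC : Cmp.{u}) (hW : Nwd.{u})
    (hL : Low.{u}) (G : Type u) [Group G] [TopologicalSpace G] [IsTopologicalGroup G] [T2Space G]
    [LocallyCompactSpace G] [FirstCountableTopology G] [SigmaCompactSpace G] (hmin : Min G) :
    Star G := by
  intro F hF
  by_contra hno
  obtain ⟨ρ, hρ, hρc, hρb⟩ := hN G
  have hρ0 : ∀ g, 0 ≤ ρ g := hρ.nonneg
  obtain ⟨K0, hK0c, hK0⟩ := exists_compact_mem_nhds (1 : G)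
  obtain ⟨r, hr, hrK⟩ := hρb K0 hK0
  have hcl : IsCompact (closure {g : G | ρ g < r}) := hK0c.closure_of_subset (fun g hg => hrK g hg)
  let E : CompactExhaustion G := default
  let C : ℕ → Set G := fun k => K0 ∪ E k
  have hCc : ∀ k, IsCompact (C k) := fun k => hK0c.union (E.isCompact k)
  have h1C : ∀ k, (1 : G) ∈ C k := fun k => Or.inl (mem_of_mem_nhds hK0)
  let t : ℕ → ℝ := fun k => (1 / 4 : ℝ) ^ k / ((k : ℝ) + 1)
  have htp : ∀ k, 0 < t k := fun k => by positivity
  have htm : ∀ k : ℕ, ((k : ℝ) + 1) * t k ≤ (1 / 4 : ℝ) ^ k := by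
    intro k
    have : ((k : ℝ) + 1) ≠ 0 := by positivity
    simp only [t]
    rw [mul_div_cancel₀ _ this]
  have htle : ∀ k, t k ≤ (1 / 4 : ℝ) ^ k := by
    intro k
    have h1 := htm k
    have h2 := htp k
    have h3 : (0 : ℝ) ≤ k := Nat.cast_nonneg k
    nlinarith
  have htlim : Tendsto t atTop (𝓝 0) :=
    squeeze_zero (fun k => (htp k).le) htle
      (tendsto_pow_atTop_nhds_zero_of_lt_one (by norm_num) (by norm_num))
  -- the sets `D`
  have hD' : ∀ (k : ℕ) (y : ℕ → G), ∃ D : Set G, IsCompact D ∧ ∀ w : List (G ⊕ (ℕ × Bool)),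
      Bel k w → cnt k w ≤ k → rw ρ w < r → ∀ c ∈ C k, ev y w * c ∈ D := by
    intro k y
    exact hC G ρ hρ r hcl y k (C k) (hCc k)
  choose D hDc hD using hD'
  obtain ⟨y, s, hys, hyP⟩ := exists_seq D (1 : G)
    (fun k x D => x ∉ D ∧ (∀ c ∈ D, ρ (x * c * x⁻¹ * c⁻¹) < t k ∧ ρ (x⁻¹ * c * x * c⁻¹) < t k) ∧
      ∀ M : ℕ, 1 ≤ M → M ≤ k → (x ^ M ∉ D ∧ (x ^ M)⁻¹ ∉ D) ∨ ρ (x ^ M) < t k)
    (fun k y' => hS G ρ hρ hρc F hF hno (D k y') (hDc k y') (t k) (htp k) k)
  have hDy : ∀ k, ∀ w : List (G ⊕ (ℕ × Bool)), Bel k w → cnt k w ≤ k → rw ρ w < r →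
      ∀ c ∈ C k, ev y w * c ∈ D k (s k) := by
    intro k w hb hc hr' c hcC
    have h1 := hD k (s k) w hb hc hr' c hcC
    rwa [ev_congr (hys k) w hb] at h1
  have hCD : ∀ k, C k ⊆ D k (s k) := by
    intro k c hc
    have h1 := hDy k [] (fun j s hj => by simp at hj) (by simp [cnt]) (by simpa [rw, wt] using hr) c hc
    simpa [ev] using h1
  have hy1 : Tendsto y atTop (𝓝 1) := by
    apply hT G hmin y
    · -- commutators
      intro g
      rw [Filter.tendsto_def]
      intro U hU
      obtain ⟨r', hr', hrU⟩ := hρb U hU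
      have h1 : ∀ᶠ k in atTop, t k < r' := htlim.eventually (gt_mem_nhds hr')
      have h2 : ∀ᶠ k in atTop, g ∈ C k := by
        obtain ⟨n, hn⟩ := E.exists_mem g
        filter_upwards [eventually_ge_atTop n] with k hk
        exact Or.inr (E.subset hk hn)
      filter_upwards [h1, h2] with k hk1 hk2
      apply hrU
      have h3 := ((hyP k).2.1 g (hCD k hk2)).1
      have h4 : g * y k * g⁻¹ * (y k)⁻¹ = (y k * g * (y k)⁻¹ * g⁻¹)⁻¹ := by group
      show ρ (g * y k * g⁻¹ * (y k)⁻¹) < r'
      rw [h4, hρ.inv]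
      linarith
    · intro z hz
      have hρz : 0 < ρ z := by
        by_contra hcon
        have h1 : ({z}ᶜ : Set G) ∈ 𝓝 (1 : G) := isOpen_compl_singleton.mem_nhds (by
          simpa using hz.symm)
        obtain ⟨r', hr', hrU⟩ := hρb _ h1
        exact hrU z (lt_of_le_of_lt (not_lt.mp hcon) hr') rfl
      let δ : ℝ := min r (ρ z) / 2
      have hδ : 0 < δ := by have := lt_min hr hρz; simp only [δ]; linarith
      obtain ⟨n1, hn1⟩ := E.exists_mem z
      have h4 : ∀ᶠ k : ℕ in atTop, 2 * (1 / 4 : ℝ) ^ k < δ := by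
        have h5 : Tendsto (fun k : ℕ => 2 * (1 / 4 : ℝ) ^ k) atTop (𝓝 (2 * 0)) :=
          (tendsto_pow_atTop_nhds_zero_of_lt_one (by norm_num) (by norm_num)).const_mul 2
        rw [mul_zero] at h5
        exact h5.eventually (gt_mem_nhds hδ)
      obtain ⟨K, hK1, hK2, hK3⟩ := (h4.and ((eventually_ge_atTop n1).and
        (eventually_ge_atTop 1))).exists
      have hzC : ∀ k, K ≤ k → z ∈ C k := fun k hk => Or.inr (E.subset (hK2.trans hk) hn1)
      let ε : ℕ → ℝ := fun j => if j < K then δ else δ / j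
      have hεp : ∀ k, 0 < ε k := by
        intro k
        simp only [ε]
        split_ifs with h
        · exact hδ
        · have : (0 : ℝ) < k := by
            have : 0 < k := by omega
            exact_mod_cast this
          positivity
      have hε1 : ∀ j, j < K → ∀ i, i ≤ j → δ ≤ ε i := by
        intro j hj i hi
        simp only [ε]
        rw [if_pos (lt_of_le_of_lt hi hj)]
      have hε2 : ∀ j, K ≤ j → ∀ i, i ≤ j → δ / j ≤ ε i := by
        intro j hj i hi
        have hj1 : (1 : ℝ) ≤ j := by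
          have : 1 ≤ j := by omega
          exact_mod_cast this
        simp only [ε]
        split_ifs with h
        · exact div_le_self hδ.le hj1
        · have hi1 : (0 : ℝ) < i := by
            have : 0 < i := by omega
            exact_mod_cast this
          apply div_le_div_of_nonneg_left hδ.le hi1
          exact_mod_cast hi
      have hlow : ∀ w : List (G ⊕ (ℕ × Bool)), ev y w = z → δ ≤ wt ρ ε w := by
        intro w hw
        by_contra hlt
        rw [not_le] at hlt
        have hrw := rw_le_wt (ρ := ρ) (fun j => (hεp j).le) w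
        have hmr : min r (ρ z) ≤ r := min_le_left _ _
        have hmz : min r (ρ z) ≤ ρ z := min_le_right _ _
        have hδ2 : δ + δ = min r (ρ z) := by simp only [δ]; ring
        refine hL G ρ hρ r hr y (fun k => D k (s k)) t (fun k => (htp k).le) htm z K ?_ ?_ ?_ w
          ?_ ?_ ?_ ?_ hw
        · intro k hk w' hb hc hr'
          refine ⟨?_, hDy k w' hb hc hr' z (hzC k hk)⟩
          have := hDy k w' hb hc hr' 1 (h1C k)
          simpa using this
        · intro k c hc
          have := (hyP k).2.1 c hc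
          exact ⟨this.1.le, this.2.le⟩
        · intro k M hM1 hM2
          rcases (hyP k).2.2 M hM1 hM2 with h | h
          · exact Or.inl h
          · exact Or.inr h.le
        · intro j hj
          have h1 := cnt_mul_le_wt hρ0 (fun j => (hεp j).le) (hε1 j hj) w
          by_contra hne
          have h2 : (1 : ℝ) ≤ cnt j w := by
            have : 1 ≤ cnt j w := Nat.one_le_iff_ne_zero.mpr hne
            exact_mod_cast this
          nlinarith
        · intro j hj
          have h1 := cnt_mul_le_wt hρ0 (fun j => (hεp j).le) (hε2 j hj) w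
          have hj0 : (0 : ℝ) < j := by
            have : 0 < j := by omega
            exact_mod_cast this
          have h2 : (cnt j w : ℝ) * (δ / j) < δ := lt_of_le_of_lt h1 hlt
          have h3 : (cnt j w : ℝ) < j := by
            have h5 : (cnt j w : ℝ) * (δ / j) = ((cnt j w : ℝ) / j) * δ := by ring
            rw [h5] at h2
            have h6 : (cnt j w : ℝ) / j < 1 := by
              by_contra hcon
              rw [not_lt] at hcon
              nlinarith
            rwa [div_lt_one hj0] at h6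
          have h4 : cnt j w < j := by exact_mod_cast h3
          omega
        · linarith
        · linarith
      obtain ⟨N, hNP, hNρ, hNy, hNz⟩ := hW G ρ hρ ε hεp y z δ hlow
      refine ⟨N, hNP, hNP.continuous_of_le hρ hρc hNρ, ?_, lt_of_lt_of_le hδ hNz⟩
      have h7 : Tendsto (fun k : ℕ => δ / (k : ℝ)) atTop (𝓝 0) :=
        tendsto_const_div_atTop_nhds_zero_nat δ
      refine tendsto_of_tendsto_of_tendsto_of_le_of_le' tendsto_const_nhds h7
        (Eventually.of_forall fun k => hNP.nonneg _) ?_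
      filter_upwards [eventually_ge_atTop K] with k hk
      have h8 := hNy k
      simp only [ε] at h8
      rwa [if_neg (not_lt.mpr hk)] at h8
  have hev := hy1.eventually_mem hK0
  obtain ⟨k, hk⟩ := hev.exists
  exact (hyP k).1 (hCD k (Or.inl hk))

/-- compact groups satisfy `Star` -/
theorem star_of_compact (G : Type u) [Group G] [TopologicalSpace G] [CompactSpace G] : Star G := by
  intro F _
  obtain ⟨z, -, hz⟩ := isCompact_univ.ultrafilter_le_nhds F (by simp)
  exact ⟨z, hz⟩

end Pool.Agent.N709.UM
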