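import Pool.Agent.N709.UM.Star
import Pool.Agent.N709.UM.Stm2

set_option autoImplicit false

/-!
Project UM2 (helper709): assembly for second countable non-archimedean Raikov complete groups.
-/

open Filter Topology

universe u v

namespace Pool.Agent.N709.UM

/-- the choice of the sequence -/
theorem exists_seq' {G : Type u} (one : G) (P : ℕ → G → (ℕ → G) → Prop)
    (h : ∀ k y, ∃ x, P k x y) :
    ∃ (y : ℕ → G) (s : ℕ → ℕ → G), (∀ k j, j < k → s k j = y j) ∧ ∀ k, P k (y k) (s k) := by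
  classical
  choose Y hY using h
  let s : ℕ → ℕ → G := fun k => Nat.rec (fun _ => one) (fun k f => Function.update f k (Y k f)) k
  have hs : ∀ k, s (k + 1) = Function.update (s k) k (Y k (s k)) := fun k => rfl
  let y : ℕ → G := fun k => Y k (s k)
  refine ⟨y, s, ?_, fun k => hY k (s k)⟩
  intro k
  induction k with
  | zero => intro j hj; exact absurd hj (Nat.not_lt_zero j)
  | succ k ih =>
    intro j hj
    rw [hs]
    rcases Nat.lt_succ_iff_lt_or_eq.mp hj with h1 | h1
    · rw [Function.update_of_ne (Nat.ne_of_lt h1)]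
      exact ih j h1
    · subst h1
      rw [Function.update_self]

theorem pp_congr {G : Type u} [Group G] {y y' : ℕ → G} :
    ∀ k : ℕ, (∀ j, j < k → y j = y' j) → pp y k = pp y' k := by
  intro k
  induction k with
  | zero => intro _; rfl
  | succ k ih =>
    intro h
    have h1 := ih fun j hj => h j (Nat.lt_succ_of_lt hj)
    simp only [pp, h1, h k (Nat.lt_succ_self k)]

theorem pp_finite {G : Type u} [Group G] (y : ℕ → G) : ∀ k : ℕ, (pp y k).Finite := by
  intro k
  induction k with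
  | zero => exact Set.finite_singleton _
  | succ k ih =>
    have h1 : ({M : ℤ | M.natAbs ≤ k} : Set ℤ).Finite := by
      refine (Set.finite_Icc (-(k : ℤ)) k).subset ?_
      intro M hM
      have hM' : M.natAbs ≤ k := hM
      simp only [Set.mem_Icc]
      omega
    refine ((ih.prod h1).image fun p => p.1 * y k ^ p.2).subset ?_
    rintro g ⟨h, hh, M, hM, rfl⟩
    exact ⟨(h, M), ⟨hh, hM⟩, rfl⟩

theorem le_wt_of_mem {G : Type u} [Group G] {ρ : G → ℝ} (hρ : ∀ g, 0 ≤ ρ g) {ε : ℕ → ℝ}
    (hε : ∀ j, 0 ≤ ε j) (u : G) : ∀ w : List (G ⊕ (ℕ × Bool)),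
    (Sum.inl u : G ⊕ (ℕ × Bool)) ∈ w → ρ u ≤ wt ρ ε w := by
  have hnn : ∀ w : List (G ⊕ (ℕ × Bool)), 0 ≤ wt ρ ε w := by
    intro w
    induction w with
    | nil => simp [wt]
    | cons a w ih =>
      rcases a with v | ⟨j, s⟩
      · simp only [wt]; have := hρ v; linarith
      · simp only [wt]; have := hε j; linarith
  intro w
  induction w with
  | nil => intro h; simp at h
  | cons a w ih =>
    intro h
    rcases List.mem_cons.1 h with h1 | h1
    · subst h1
      simp only [wt]
      have := hnn w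
      linarith
    · have h2 := ih h1
      rcases a with v | ⟨j, s⟩
      · simp only [wt]; have := hρ v; linarith
      · simp only [wt]; have := hε j; linarith

theorem star2_of (hC : Cau.{u}) (hS : Sel2.{u}) (hL : Lw2.{u}) (hJ : Cj.{u}) (hT : Top.{u})
    (hW : Nwd.{u}) (G : Type u) [Group G] [TopologicalSpace G] [IsTopologicalGroup G] [T2Space G]
    [SecondCountableTopology G] (hrc : RC G) (hna : NA G) (hmin : Min G) (ρ : G → ℝ)
    (hρ : Gen ρ) (F : Ultrafilter G) (hF : AI ρ F) : ∃ z : G, (F : Filter G) ≤ 𝓝 z := by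
  classical
  by_contra hno
  have hρ0 : ∀ g, 0 ≤ ρ g := hρ.pn.nonneg
  obtain ⟨U0, hU0, hU0F⟩ := hC G hrc hna ρ hρ F hF hno
  -- open subgroups
  have hU' : ∀ n : ℕ, ∃ V : Subgroup G, IsOpen (V : Set G) ∧
      (V : Set G) ⊆ {g | ρ g < 1 / ((n : ℝ) + 1)} := by
    intro n
    apply hna
    have hop : IsOpen {g | ρ g < 1 / ((n : ℝ) + 1)} := isOpen_lt hρ.cont continuous_const
    apply hop.mem_nhds
    show ρ 1 < _
    rw [hρ.pn.one]
    positivity
  choose U hUo hUs using hU'
  let q : ℕ → G := TopologicalSpace.denseSeq G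
  have hq : DenseRange q := TopologicalSpace.denseRange_denseSeq G
  let t : ℕ → ℝ := fun k => (1 / 4 : ℝ) ^ k / ((k : ℝ) + 1)
  have htp : ∀ k, 0 < t k := fun k => by positivity
  have htm : ∀ k : ℕ, ((k : ℝ) + 1) * t k ≤ (1 / 4 : ℝ) ^ k := by
    intro k
    have : ((k : ℝ) + 1) ≠ 0 := by positivity
    simp only [t]
    rw [mul_div_cancel₀ _ this]
  have htm' : ∀ k : ℕ, (k : ℝ) * t k ≤ (1 / 4 : ℝ) ^ k := by
    intro k
    have h1 := htm k
    have h2 := htp k
    linarith
  have htle : ∀ k, t k ≤ (1 / 4 : ℝ) ^ k := by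
    intro k
    have h1 := htm k
    have h2 := htp k
    have h3 : (0 : ℝ) ≤ k := Nat.cast_nonneg k
    nlinarith
  have htlim : Tendsto t atTop (𝓝 0) :=
    squeeze_zero (fun k => (htp k).le) htle
      (tendsto_pow_atTop_nhds_zero_of_lt_one (by norm_num) (by norm_num))
  -- the data of the stages
  let D : ℕ → (ℕ → G) → Set G := fun k y' =>
    {c | ∃ j, j < k ∧ (c = y' j ∨ c = (y' j)⁻¹)} ∪ {c | ∃ i, i ≤ k ∧ c = q i}
  let S : ℕ → (ℕ → G) → Set (Subgroup G × G × G) := fun k y' =>
    {s | ∃ n, n ≤ k ∧ ∃ i, i ≤ k ∧ ∃ h ∈ pp y' k, h * q i ∉ U n ∧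
      (s = (U n, h, q i) ∨ s = (U n, (q i)⁻¹, h⁻¹))}
  have hDf : ∀ k y', (D k y').Finite := by
    intro k y'
    have h1 : ({c | ∃ j, j < k ∧ (c = y' j ∨ c = (y' j)⁻¹)} : Set G).Finite := by
      have h2 : ({c | ∃ j, j < k ∧ (c = y' j ∨ c = (y' j)⁻¹)} : Set G) =
          (fun j => y' j) '' (Set.Iio k) ∪ (fun j => (y' j)⁻¹) '' (Set.Iio k) := by
        ext c
        constructor
        · rintro ⟨j, hj, h | h⟩
          · exact Or.inl ⟨j, hj, h.symm⟩
          · exact Or.inr ⟨j, hj, h.symm⟩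
        · rintro (⟨j, hj, h⟩ | ⟨j, hj, h⟩)
          · exact ⟨j, hj, Or.inl h.symm⟩
          · exact ⟨j, hj, Or.inr h.symm⟩
      rw [h2]
      exact ((Set.finite_Iio k).image _).union ((Set.finite_Iio k).image _)
    have h3 : ({c | ∃ i, i ≤ k ∧ c = q i} : Set G).Finite := by
      refine ((Set.finite_Iic k).image q).subset ?_
      rintro c ⟨i, hi, rfl⟩
      exact ⟨i, hi, rfl⟩
    exact h1.union h3
  have hSf : ∀ k y', (S k y').Finite := by
    intro k y'
    have h1 : (((Set.Iic k) ×ˢ (Set.Iic k) ×ˢ (pp y' k)) : Set (ℕ × ℕ × G)).Finite :=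
      (Set.finite_Iic k).prod ((Set.finite_Iic k).prod (pp_finite y' k))
    refine ((h1.image fun p => ((U p.1, p.2.2, q p.2.1) : Subgroup G × G × G)).union
      (h1.image fun p => ((U p.1, (q p.2.1)⁻¹, p.2.2⁻¹) : Subgroup G × G × G))).subset ?_
    rintro s ⟨n, hn, i, hi, h, hh, -, h2 | h2⟩
    · exact Or.inl ⟨(n, i, h), ⟨hn, hi, hh⟩, h2.symm⟩
    · exact Or.inr ⟨(n, i, h), ⟨hn, hi, hh⟩, h2.symm⟩
  have hSv : ∀ k y', ∀ s ∈ S k y', IsOpen (s.1 : Set G) ∧ s.2.1 * s.2.2 ∉ s.1 := by
    rintro k y' s ⟨n, hn, i, hi, h, hh, hne, h2 | h2⟩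
    · subst h2
      exact ⟨hUo n, hne⟩
    · subst h2
      refine ⟨hUo n, ?_⟩
      show (q i)⁻¹ * h⁻¹ ∉ U n
      rw [← mul_inv_rev]
      intro hcon
      exact hne ((Subgroup.inv_mem_iff _).1 hcon)
  obtain ⟨y, s, hys, hyP⟩ := exists_seq' (1 : G)
    (fun k x y' => x ∉ U0 ∧ (∀ c, ρ (x * c * x⁻¹) ≤ ρ c + t k ∧ ρ (x⁻¹ * c * x) ≤ ρ c + t k) ∧
      (∀ c ∈ D k y', ρ (x * c * x⁻¹ * c⁻¹) < t k ∧ ρ (x⁻¹ * c * x * c⁻¹) < t k) ∧
      ∀ s ∈ S k y', ∀ M : ℕ, 1 ≤ M → M ≤ k → s.2.1 * x ^ M * s.2.2 ∉ s.1)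
    (fun k y' => hS G ρ hρ F hF U0 hU0F (D k y') (hDf k y') (S k y') (hSf k y') (hSv k y')
      (t k) (htp k) k)
  have hpp : ∀ k, pp (s k) k = pp y k := fun k => pp_congr k (hys k)
  have hinv : ∀ k c, ρ (y k * c * (y k)⁻¹) ≤ ρ c + t k ∧ ρ ((y k)⁻¹ * c * y k) ≤ ρ c + t k :=
    fun k => (hyP k).2.1
  have hcomj : ∀ k j, j < k → ∀ c, (c = y j ∨ c = (y j)⁻¹) →
      ρ (y k * c * (y k)⁻¹ * c⁻¹) < t k ∧ ρ ((y k)⁻¹ * c * y k * c⁻¹) < t k := by
    intro k j hj c hc
    refine (hyP k).2.2.1 c (Or.inl ⟨j, hj, ?_⟩)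
    rw [hys k j hj]
    exact hc
  have hcomq : ∀ i k, i ≤ k → ρ (y k * q i * (y k)⁻¹ * (q i)⁻¹) < t k := by
    intro i k hi
    exact ((hyP k).2.2.1 (q i) (Or.inr ⟨i, hi, rfl⟩)).1
  have hnl : ∀ k n i, n ≤ k → i ≤ k → ∀ h ∈ pp y k, h * q i ∉ U n → ∀ M : ℤ, M.natAbs ≤ k →
      h * y k ^ M * q i ∉ U n := by
    intro k n i hn hi h hh hne M hM
    rw [← hpp k] at hh
    rcases lt_trichotomy M 0 with hM0 | hM0 | hM0
    · have h1 := (hyP k).2.2.2 (U n, (q i)⁻¹, h⁻¹) ⟨n, hn, i, hi, h, hh, hne, Or.inr rfl⟩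
        M.natAbs (by omega) hM
      intro hcon
      apply h1
      show (q i)⁻¹ * y k ^ M.natAbs * h⁻¹ ∈ U n
      have h2 : (q i)⁻¹ * y k ^ M.natAbs * h⁻¹ = (h * y k ^ M * q i)⁻¹ := by
        have h3 : (M.natAbs : ℤ) = -M := by omega
        have h4 : y k ^ M.natAbs = (y k ^ M)⁻¹ := by
          rw [← zpow_natCast, h3, zpow_neg]
        rw [h4]
        group
      rw [h2]
      exact inv_mem hcon
    · subst hM0
      simpa using hne
    · have h1 := (hyP k).2.2.2 (U n, h, q i) ⟨n, hn, i, hi, h, hh, hne, Or.inl rfl⟩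
        M.natAbs (by omega) hM
      intro hcon
      apply h1
      show h * y k ^ M.natAbs * q i ∈ U n
      have h3 : (M.natAbs : ℤ) = M := by omega
      rw [← zpow_natCast, h3]
      exact hcon
  have hy1 : Tendsto y atTop (𝓝 1) := by
    apply hT G hmin y
    · exact hJ G ρ hρ y t htlim (fun k c => (hinv k c).1) q hq hcomq
    · intro z hz
      -- an open subgroup without `z`
      have h1 : ({z}ᶜ : Set G) ∈ 𝓝 (1 : G) := isOpen_compl_singleton.mem_nhds (by
        simpa using hz.symm)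
      obtain ⟨r', hr', hrU⟩ := hρ.gen _ h1
      obtain ⟨n, hn⟩ := exists_nat_one_div_lt hr'
      have hzn : z ∉ U n := by
        intro hcon
        have h2 : ρ z < 1 / ((n : ℝ) + 1) := hUs n hcon
        exact hrU z (h2.trans hn) rfl
      obtain ⟨i, hi⟩ : ∃ i, z * q i ∈ U n := by
        have hop : IsOpen {x : G | z * x ∈ U n} :=
          (hUo n).preimage (continuous_const.mul continuous_id)
        obtain ⟨i, hi⟩ := hq.exists_mem_open hop ⟨z⁻¹, by
          show z * z⁻¹ ∈ U n
          rw [mul_inv_cancel]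
          exact one_mem _⟩
        exact ⟨i, hi⟩
      obtain ⟨r1, hr1, hr1U⟩ := hρ.gen (U n : Set G) ((hUo n).mem_nhds (one_mem _))
      let r : ℝ := r1 / 2
      have hr : 0 < r := by simp only [r]; linarith
      have h4 : ∀ᶠ k : ℕ in atTop, 2 * (1 / 4 : ℝ) ^ k < r := by
        have h5 : Tendsto (fun k : ℕ => 2 * (1 / 4 : ℝ) ^ k) atTop (𝓝 (2 * 0)) :=
          (tendsto_pow_atTop_nhds_zero_of_lt_one (by norm_num) (by norm_num)).const_mul 2
        rw [mul_zero] at h5
        exact h5.eventually (gt_mem_nhds hr)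
      obtain ⟨K, hK1, hK2, hK3, hK4⟩ := (h4.and ((eventually_ge_atTop n).and
        ((eventually_ge_atTop i).and (eventually_ge_atTop 1)))).exists
      let δ : ℝ := r
      have hδ : 0 < δ := hr
      let ε : ℕ → ℝ := fun j => if j < K then δ else δ / j
      have hεp : ∀ k, 0 < ε k := by
        intro k
        simp only [ε]
        split_ifs with h
        · exact hδ
        · have : (0 : ℝ) < k := by
            have : 0 < k := by omega
            exact_mod_cast this
          positivity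
      have hε1 : ∀ j, j < K → ∀ i, i ≤ j → δ ≤ ε i := by
        intro j hj i hi
        simp only [ε]
        rw [if_pos (lt_of_le_of_lt hi hj)]
      have hε2 : ∀ j, K ≤ j → ∀ i, i ≤ j → δ / j ≤ ε i := by
        intro j hj i hi
        have hj1 : (1 : ℝ) ≤ j := by
          have : 1 ≤ j := by omega
          exact_mod_cast this
        simp only [ε]
        split_ifs with h
        · exact div_le_self hδ.le hj1
        · have hi1 : (0 : ℝ) < i := by
            have : 0 < i := by omega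
            exact_mod_cast this
          apply div_le_div_of_nonneg_left hδ.le hi1
          exact_mod_cast hi
      have hlow : ∀ w : List (G ⊕ (ℕ × Bool)), ev y w = z → δ ≤ wt ρ ε w := by
        intro w hw
        by_contra hlt
        rw [not_le] at hlt
        refine hL G ρ hρ.pn (U n) y t K r z (q i) hr (fun k => (htp k).le) htm' ?_
          (fun k _ => hinv k) ?_ hzn hi ?_ w ?_ ?_ ?_ hw
        · intro g hg
          apply hr1U
          have h6 : r + r = r1 := by simp only [r]; ring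
          linarith
        · intro k hk j hj c hc
          have h6 := hcomj k j hj c hc
          have h7 : t k < r := by
            have h8 := htle k
            have h9 : (1 / 4 : ℝ) ^ k ≤ (1 / 4 : ℝ) ^ K :=
              pow_le_pow_of_le_one (by norm_num) (by norm_num) hk
            have h10 : (0 : ℝ) < (1 / 4 : ℝ) ^ K := by positivity
            linarith
          exact ⟨h6.1.trans h7, h6.2.trans h7⟩
        · intro k hk h hh hne M hM
          exact hnl k n i (hK2.trans hk) (hK3.trans hk) h hh hne M hM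
        · intro j hj
          have h1 := cnt_mul_le_wt hρ0 (fun j => (hεp j).le) (hε1 j hj) w
          by_contra hne
          have h2 : (1 : ℝ) ≤ cnt j w := by
            have : 1 ≤ cnt j w := Nat.one_le_iff_ne_zero.mpr hne
            exact_mod_cast this
          nlinarith
        · intro j hj
          have h1 := cnt_mul_le_wt hρ0 (fun j => (hεp j).le) (hε2 j hj) w
          have hj0 : (0 : ℝ) < j := by
            have : 0 < j := by omega
            exact_mod_cast this
          have h2 : (cnt j w : ℝ) * (δ / j) < δ := lt_of_le_of_lt h1 hlt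
          have h3 : (cnt j w : ℝ) < j := by
            have h5 : (cnt j w : ℝ) * (δ / j) = ((cnt j w : ℝ) / j) * δ := by ring
            rw [h5] at h2
            have h6 : (cnt j w : ℝ) / j < 1 := by
              by_contra hcon
              rw [not_lt] at hcon
              nlinarith
            rwa [div_lt_one hj0] at h6
          have h4 : cnt j w < j := by exact_mod_cast h3
          omega
        · intro u hu
          exact lt_of_le_of_lt (le_wt_of_mem hρ0 (fun j => (hεp j).le) u w hu) hlt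
      obtain ⟨N, hNP, hNρ, hNy, hNz⟩ := hW G ρ hρ.pn ε hεp y z δ hlow
      refine ⟨N, hNP, hNP.continuous_of_le hρ.pn hρ.cont hNρ, ?_, lt_of_lt_of_le hδ hNz⟩
      have h7 : Tendsto (fun k : ℕ => δ / (k : ℝ)) atTop (𝓝 0) :=
        tendsto_const_div_atTop_nhds_zero_nat δ
      refine tendsto_of_tendsto_of_tendsto_of_le_of_le' tendsto_const_nhds h7
        (Eventually.of_forall fun k => hNP.nonneg _) ?_
      filter_upwards [eventually_ge_atTop K] with k hk
      have h8 := hNy k
      simp only [ε] at h8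
      rwa [if_neg (not_lt.mpr hk)] at h8
  have hev := hy1.eventually_mem (hU0.mem_nhds (one_mem U0))
  obtain ⟨k, hk⟩ := hev.exists
  exact (hyP k).1 hk

end Pool.Agent.N709.UM
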