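import Pool.Agent.N709.UM.Stm2

set_option autoImplicit false

/-!
Project UM3 (helper709): factors which are second countable, Raikov complete and have arbitrarily
small subgroups `U` with `G ⧸ U` locally compact.  Statements of the leaves.
-/

open Filter Topology

universe u v w

namespace Pool.Agent.N709.UM

/-- distance of `g U` and `U` -/
noncomputable def dU {G : Type u} [Group G] (ρ : G → ℝ) (U : Subgroup G) (g : G) : ℝ :=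
  ⨅ u : U, ρ (g * u)

/-- the points of `G ⧸ U` at distance less than `r` from `U` are in a compact set -/
def Cpt {G : Type u} [Group G] [TopologicalSpace G] (ρ : G → ℝ) (U : Subgroup G) (r : ℝ) : Prop :=
  ∃ C : Set (G ⧸ U), IsCompact C ∧ ∀ g : G, ρ g < r → (g : G ⧸ U) ∈ C

/-- Leaf NL3: no loss -/
def Nl3 : Prop := ∀ (G : Type u) [Group G] [TopologicalSpace G] [IsTopologicalGroup G]
  (ρ : G → ℝ), Gen ρ → ∀ F : Ultrafilter G, AI ρ F → ∀ (U : Subgroup G) (r : ℝ), Cpt ρ U r →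
  ∀ (M : ℕ) (h q : G) (s : ℝ), s < dU ρ U (h * q) → s < r →
  {a : G | {b : G | s < dU ρ U (h * (a ^ M * (b ^ M)⁻¹) * q)} ∈ F} ∈ F

/-- Leaf SEL3 (given PWC and NL3) -/
def Sel3 : Prop := ∀ (G : Type u) [Group G] [TopologicalSpace G] [IsTopologicalGroup G]
  (ρ : G → ℝ), Gen ρ → ∀ F : Ultrafilter G, AI ρ F →
  ∀ e : ℝ, {a : G | {b : G | e ≤ ρ (a * b⁻¹)} ∈ F} ∈ F →
  ∀ D : Set G, D.Finite → ∀ (ι : Type u) [Finite ι] (U : ι → Subgroup G) (r : ι → ℝ)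
  (h q : ι → G) (s : ι → ℝ),
  (∀ i, Cpt ρ (U i) (r i) ∧ s i < dU ρ (U i) (h i * q i) ∧ s i < r i) →
  ∀ t : ℝ, 0 < t → ∀ k : ℕ,
  ∃ y : G, e ≤ ρ y ∧ (∀ c, ρ (y * c * y⁻¹) ≤ ρ c + t ∧ ρ (y⁻¹ * c * y) ≤ ρ c + t) ∧
    (∀ c ∈ D, ρ (y * c * y⁻¹ * c⁻¹) < t ∧ ρ (y⁻¹ * c * y * c⁻¹) < t) ∧
    ∀ i, ∀ M : ℕ, 1 ≤ M → M ≤ k → s i < dU ρ (U i) (h i * y ^ M * q i) ∧
      s i < dU ρ (U i) (h i * (y ^ M)⁻¹ * q i)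

/-- Leaf CAU3 -/
def Cau3 : Prop := ∀ (G : Type u) [Group G] [TopologicalSpace G] [IsTopologicalGroup G],
  RC G → ∀ ρ : G → ℝ, Gen ρ → ∀ F : Ultrafilter G, AI ρ F →
  (¬ ∃ z : G, (F : Filter G) ≤ 𝓝 z) →
  ∃ e : ℝ, 0 < e ∧ {a : G | {b : G | e ≤ ρ (a * b⁻¹)} ∈ F} ∈ F

/-- Leaf RM3: removal of the letters of largest index by conjugation, with control of the sum -/
def Rm3 : Prop := ∀ (G : Type u) [Group G] (ρ : G → ℝ), PN ρ → ∀ (t : ℝ), 0 ≤ t →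
  ∀ (y : ℕ → G) (k : ℕ),
  (∀ c, ρ (y k * c * (y k)⁻¹) ≤ ρ c + t ∧ ρ ((y k)⁻¹ * c * y k) ≤ ρ c + t) →
  (∀ j, j < k → ∀ c, (c = y j ∨ c = (y j)⁻¹) →
    ρ (y k * c * (y k)⁻¹ * c⁻¹) ≤ t ∧ ρ ((y k)⁻¹ * c * y k * c⁻¹) ≤ t) →
  ∀ w : List (G ⊕ (ℕ × Bool)), Bel (k + 1) w → cnt k w ≤ k →
  ∃ (w' : List (G ⊕ (ℕ × Bool))) (M : ℤ), Bel k w' ∧ (∀ j, cnt j w' ≤ cnt j w) ∧
    M.natAbs ≤ cnt k w ∧
    rw ρ w' ≤ rw ρ w + (cnt k w : ℝ) * ((2 * (k : ℝ) + 1) * t) ∧ ev y w = ev y w' * y k ^ M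

/-- Leaf LW3 (given RM3): words of small weight do not represent `z` -/
def Lw3 : Prop := ∀ (G : Type u) [Group G] (ρ : G → ℝ), PN ρ → ∀ (U : Subgroup G) (y : ℕ → G)
  (t : ℕ → ℝ) (K : ℕ) (r : ℝ) (z q : G), 1 ≤ K → (∀ k, 0 ≤ t k) →
  (∀ k : ℕ, (k : ℝ) * ((2 * (k : ℝ) + 1) * t k) ≤ (1 / 4 : ℝ) ^ k) →
  (∀ k, K ≤ k → ∀ c, ρ (y k * c * (y k)⁻¹) ≤ ρ c + t k ∧ ρ ((y k)⁻¹ * c * y k) ≤ ρ c + t k) →
  (∀ k, K ≤ k → ∀ j, j < k → ∀ c, (c = y j ∨ c = (y j)⁻¹) →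
    ρ (y k * c * (y k)⁻¹ * c⁻¹) ≤ t k ∧ ρ ((y k)⁻¹ * c * y k * c⁻¹) ≤ t k) →
  (∀ k, K ≤ k → ∀ h ∈ pp y k, ∀ M : ℤ, M.natAbs ≤ k →
    min (dU ρ U (h * q)) r - t k ≤ dU ρ U (h * y k ^ M * q)) →
  ∀ w : List (G ⊕ (ℕ × Bool)), (∀ j, j < K → cnt j w = 0) → (∀ j, K ≤ j → cnt j w ≤ j - 1) →
    rw ρ w + ρ (z * q) + 4 * (1 / 4 : ℝ) ^ K < min (dU ρ U q) r → ev y w ≠ z

end Pool.Agent.N709.UM
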