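import Pool.Agent.N709.UM.Star2
import Pool.Agent.N709.UM.Stm3

set_option autoImplicit false

/-!
Project UM3 (helper709): assembly for second countable Raikov complete groups `G` with arbitrarily
small subgroups `U` such that `G ⧸ U` is locally compact.
-/

open Filter Topology

universe u v

namespace Pool.Agent.N709.UM

/-- there are arbitrarily small subgroups `U` such that `G ⧸ U` is locally compact -/
def SC (G : Type u) [Group G] [TopologicalSpace G] : Prop :=
  ∀ V ∈ 𝓝 (1 : G), ∃ U : Subgroup G, (U : Set G) ⊆ V ∧ LocallyCompactSpace (G ⧸ U)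

theorem cpt_of_lc {G : Type u} [Group G] [TopologicalSpace G] [IsTopologicalGroup G] {ρ : G → ℝ}
    (hρ : Gen ρ) (U : Subgroup G) (h : LocallyCompactSpace (G ⧸ U)) : ∃ r > 0, Cpt ρ U r := by
  obtain ⟨C, hC, hC1⟩ := exists_compact_mem_nhds ((1 : G) : G ⧸ U)
  have h1 : (fun g : G => (g : G ⧸ U)) ⁻¹' C ∈ 𝓝 (1 : G) :=
    (continuous_quotient_mk'.tendsto (1 : G)) hC1
  obtain ⟨r, hr, hrU⟩ := hρ.gen _ h1
  exact ⟨r, hr, C, hC, hrU⟩

theorem dU_le {G : Type u} [Group G] {ρ : G → ℝ} (hρ : ∀ g, 0 ≤ ρ g) (U : Subgroup G) (g : G)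
    (u : U) : dU ρ U g ≤ ρ (g * u) :=
  ciInf_le ⟨0, by rintro _ ⟨v, rfl⟩; exact hρ _⟩ u

theorem star3_of (hC : Cau3.{u}) (hS : Sel3.{u}) (hL : Lw3.{u}) (hJ : Cj.{u}) (hT : Top.{u})
    (hW : Nwd.{u}) (G : Type u) [Group G] [TopologicalSpace G] [IsTopologicalGroup G] [T2Space G]
    [SecondCountableTopology G] (hrc : RC G) (hna : SC G) (hmin : Min G) (ρ : G → ℝ)
    (hρ : Gen ρ) (F : Ultrafilter G) (hF : AI ρ F) : ∃ z : G, (F : Filter G) ≤ 𝓝 z := by
  classical
  by_contra hno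
  have hρ0 : ∀ g, 0 ≤ ρ g := hρ.pn.nonneg
  obtain ⟨e, he, heF⟩ := hC G hrc ρ hρ F hF hno
  -- open subgroups
  have hU' : ∀ n : ℕ, ∃ V : Subgroup G,
      (V : Set G) ⊆ {g | ρ g < 1 / ((n : ℝ) + 1)} ∧ LocallyCompactSpace (G ⧸ V) := by
    intro n
    apply hna
    have hop : IsOpen {g | ρ g < 1 / ((n : ℝ) + 1)} := isOpen_lt hρ.cont continuous_const
    apply hop.mem_nhds
    show ρ 1 < _
    rw [hρ.pn.one]
    positivity
  choose U hUs hUo using hU'
  have hr' : ∀ n, ∃ r > 0, Cpt ρ (U n) r := fun n => cpt_of_lc hρ (U n) (hUo n)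
  choose rU hrU hrC using hr'
  let q : ℕ → G := TopologicalSpace.denseSeq G
  have hq : DenseRange q := TopologicalSpace.denseRange_denseSeq G
  let t : ℕ → ℝ := fun k => (1 / 4 : ℝ) ^ k / ((2 * (k : ℝ) + 1) * ((k : ℝ) + 1))
  have htp : ∀ k, 0 < t k := fun k => by positivity
  have htm : ∀ k : ℕ, ((2 * (k : ℝ) + 1) * ((k : ℝ) + 1)) * t k = (1 / 4 : ℝ) ^ k := by
    intro k
    have : ((2 * (k : ℝ) + 1) * ((k : ℝ) + 1)) ≠ 0 := by positivity
    simp only [t]
    rw [mul_div_cancel₀ _ this]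
  have htm' : ∀ k : ℕ, (k : ℝ) * ((2 * (k : ℝ) + 1) * t k) ≤ (1 / 4 : ℝ) ^ k := by
    intro k
    have h1 := htm k
    have h2 := htp k
    have h3 : (0 : ℝ) ≤ k := Nat.cast_nonneg k
    have h4 : 0 ≤ (2 * (k : ℝ) + 1) * t k := by positivity
    nlinarith
  have htle : ∀ k, t k ≤ (1 / 4 : ℝ) ^ k := by
    intro k
    have h1 := htm k
    have h2 := htp k
    have h3 : (0 : ℝ) ≤ k := Nat.cast_nonneg k
    have h4 : (1 : ℝ) ≤ (2 * (k : ℝ) + 1) * ((k : ℝ) + 1) := by nlinarith
    nlinarith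
  have htlim : Tendsto t atTop (𝓝 0) :=
    squeeze_zero (fun k => (htp k).le) htle
      (tendsto_pow_atTop_nhds_zero_of_lt_one (by norm_num) (by norm_num))
  -- the data of the stages
  let D : ℕ → (ℕ → G) → Set G := fun k y' =>
    {c | ∃ j, j < k ∧ (c = y' j ∨ c = (y' j)⁻¹)} ∪ {c | ∃ i, i ≤ k ∧ c = q i}
  let S : ℕ → (ℕ → G) → Set (ℕ × ℕ × G) := fun k y' =>
    (Set.Iic k) ×ˢ (Set.Iic k) ×ˢ (pp y' k)
  have hDf : ∀ k y', (D k y').Finite := by
    intro k y'
    have h1 : ({c | ∃ j, j < k ∧ (c = y' j ∨ c = (y' j)⁻¹)} : Set G).Finite := by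
      have h2 : ({c | ∃ j, j < k ∧ (c = y' j ∨ c = (y' j)⁻¹)} : Set G) =
          (fun j => y' j) '' (Set.Iio k) ∪ (fun j => (y' j)⁻¹) '' (Set.Iio k) := by
        ext c
        constructor
        · rintro ⟨j, hj, h | h⟩
          · exact Or.inl ⟨j, hj, h.symm⟩
          · exact Or.inr ⟨j, hj, h.symm⟩
        · rintro (⟨j, hj, h⟩ | ⟨j, hj, h⟩)
          · exact ⟨j, hj, Or.inl h.symm⟩
          · exact ⟨j, hj, Or.inr h.symm⟩
      rw [h2]
      exact ((Set.finite_Iio k).image _).union ((Set.finite_Iio k).image _)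
    have h3 : ({c | ∃ i, i ≤ k ∧ c = q i} : Set G).Finite := by
      refine ((Set.finite_Iic k).image q).subset ?_
      rintro c ⟨i, hi, rfl⟩
      exact ⟨i, hi, rfl⟩
    exact h1.union h3
  have hSf : ∀ k y', (S k y').Finite := by
    intro k y'
    exact (Set.finite_Iic k).prod ((Set.finite_Iic k).prod (pp_finite y' k))
  obtain ⟨y, s, hys, hyP⟩ := exists_seq' (1 : G)
    (fun k x y' => e ≤ ρ x ∧ (∀ c, ρ (x * c * x⁻¹) ≤ ρ c + t k ∧ ρ (x⁻¹ * c * x) ≤ ρ c + t k) ∧
      (∀ c ∈ D k y', ρ (x * c * x⁻¹ * c⁻¹) < t k ∧ ρ (x⁻¹ * c * x * c⁻¹) < t k) ∧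
      ∀ n i, ∀ h ∈ pp y' k, n ≤ k → i ≤ k → ∀ M : ℕ, 1 ≤ M → M ≤ k →
        min (dU ρ (U n) (h * q i)) (rU n) - t k < dU ρ (U n) (h * x ^ M * q i) ∧
        min (dU ρ (U n) (h * q i)) (rU n) - t k < dU ρ (U n) (h * (x ^ M)⁻¹ * q i)) (by
    intro k y'
    have hfin : Finite (S k y') := (hSf k y').to_subtype
    obtain ⟨x, hx1, hx2, hx3, hx4⟩ := hS G ρ hρ F hF e heF (D k y') (hDf k y') (S k y')
      (fun i => U i.1.1) (fun i => rU i.1.1) (fun i => i.1.2.2) (fun i => q i.1.2.1)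
      (fun i => min (dU ρ (U i.1.1) (i.1.2.2 * q i.1.2.1)) (rU i.1.1) - t k) (by
        intro i
        have h1 := htp k
        have h2 := min_le_left (dU ρ (U i.1.1) (i.1.2.2 * q i.1.2.1)) (rU i.1.1)
        have h3 := min_le_right (dU ρ (U i.1.1) (i.1.2.2 * q i.1.2.1)) (rU i.1.1)
        refine ⟨hrC _, ?_, ?_⟩
        · show min (dU ρ (U i.1.1) (i.1.2.2 * q i.1.2.1)) (rU i.1.1) - t k <
            dU ρ (U i.1.1) (i.1.2.2 * q i.1.2.1)
          linarith
        · show min (dU ρ (U i.1.1) (i.1.2.2 * q i.1.2.1)) (rU i.1.1) - t k < rU i.1.1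
          linarith) (t k) (htp k) k
    refine ⟨x, hx1, hx2, hx3, ?_⟩
    intro n i h hh hn hi M hM1 hM2
    exact hx4 ⟨(n, i, h), ⟨hn, hi, hh⟩⟩ M hM1 hM2)
  have hpp : ∀ k, pp (s k) k = pp y k := fun k => pp_congr k (hys k)
  have hinv : ∀ k c, ρ (y k * c * (y k)⁻¹) ≤ ρ c + t k ∧ ρ ((y k)⁻¹ * c * y k) ≤ ρ c + t k :=
    fun k => (hyP k).2.1
  have hcomj : ∀ k j, j < k → ∀ c, (c = y j ∨ c = (y j)⁻¹) →
      ρ (y k * c * (y k)⁻¹ * c⁻¹) < t k ∧ ρ ((y k)⁻¹ * c * y k * c⁻¹) < t k := by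
    intro k j hj c hc
    refine (hyP k).2.2.1 c (Or.inl ⟨j, hj, ?_⟩)
    rw [hys k j hj]
    exact hc
  have hcomq : ∀ i k, i ≤ k → ρ (y k * q i * (y k)⁻¹ * (q i)⁻¹) < t k := by
    intro i k hi
    exact ((hyP k).2.2.1 (q i) (Or.inr ⟨i, hi, rfl⟩)).1
  have hnl : ∀ k n i, n ≤ k → i ≤ k → ∀ h ∈ pp y k, ∀ M : ℤ, M.natAbs ≤ k →
      min (dU ρ (U n) (h * q i)) (rU n) - t k ≤ dU ρ (U n) (h * y k ^ M * q i) := by
    intro k n i hn hi h hh M hM
    rw [← hpp k] at hh
    rcases lt_trichotomy M 0 with hM0 | hM0 | hM0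
    · have h1 := ((hyP k).2.2.2 n i h hh hn hi M.natAbs (by omega) hM).2
      have h3 : (M.natAbs : ℤ) = -M := by omega
      have h4 : (y k ^ M.natAbs)⁻¹ = y k ^ M := by
        rw [← zpow_natCast, h3, zpow_neg, inv_inv]
      rw [h4] at h1
      exact h1.le
    · subst hM0
      have h1 := htp k
      have h2 := min_le_left (dU ρ (U n) (h * q i)) (rU n)
      rw [zpow_zero, mul_one]
      linarith
    · have h1 := ((hyP k).2.2.2 n i h hh hn hi M.natAbs (by omega) hM).1
      have h3 : (M.natAbs : ℤ) = M := by omega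
      rw [← zpow_natCast, h3] at h1
      exact h1.le
  have hy1 : Tendsto y atTop (𝓝 1) := by
    apply hT G hmin y
    · exact hJ G ρ hρ y t htlim (fun k c => (hinv k c).1) q hq hcomq
    · intro z hz
      have hρz : 0 < ρ z := by
        by_contra hcon
        have h1 : ({z}ᶜ : Set G) ∈ 𝓝 (1 : G) := isOpen_compl_singleton.mem_nhds (by
          simpa using hz.symm)
        obtain ⟨r', hr', hrU⟩ := hρ.gen _ h1
        exact hrU z (lt_of_le_of_lt (not_lt.mp hcon) hr') rfl
      obtain ⟨n, hn⟩ := exists_nat_one_div_lt (show 0 < ρ z / 4 by linarith)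
      let c0 : ℝ := min (ρ z / 2) (rU n)
      have hc0 : 0 < c0 := lt_min (by linarith) (hrU n)
      have hc0z : c0 ≤ ρ z / 2 := min_le_left _ _
      obtain ⟨i, hi⟩ : ∃ i, ρ (z * q i) < c0 / 8 := by
        have hop : IsOpen {x : G | ρ (z * x) < c0 / 8} :=
          isOpen_lt (hρ.cont.comp (continuous_const.mul continuous_id)) continuous_const
        obtain ⟨i, hi⟩ := hq.exists_mem_open hop ⟨z⁻¹, by
          show ρ (z * z⁻¹) < c0 / 8
          rw [mul_inv_cancel, hρ.pn.one]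
          linarith⟩
        exact ⟨i, hi⟩
      have hdq : c0 ≤ min (dU ρ (U n) (q i)) (rU n) := by
        refine le_min ?_ (min_le_right _ _)
        refine hc0z.trans ?_
        apply le_ciInf
        intro u
        have h1 : ρ (u : G) < 1 / ((n : ℝ) + 1) := hUs n u.2
        have h2 := hρ.pn.mul (z * q i * u) (q i * u)⁻¹
        have h3 : z * q i * (u : G) * (q i * u)⁻¹ = z := by group
        rw [h3, hρ.pn.inv] at h2
        have h4 := hρ.pn.mul (z * q i) u
        linarith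
      have h4 : ∀ᶠ k : ℕ in atTop, 4 * (1 / 4 : ℝ) ^ k < c0 / 4 := by
        have h5 : Tendsto (fun k : ℕ => 4 * (1 / 4 : ℝ) ^ k) atTop (𝓝 (4 * 0)) :=
          (tendsto_pow_atTop_nhds_zero_of_lt_one (by norm_num) (by norm_num)).const_mul 4
        rw [mul_zero] at h5
        exact h5.eventually (gt_mem_nhds (by linarith))
      obtain ⟨K, hK1, hK2, hK3, hK4⟩ := (h4.and ((eventually_ge_atTop n).and
        ((eventually_ge_atTop i).and (eventually_ge_atTop 1)))).exists
      let δ : ℝ := c0 / 4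
      have hδ : 0 < δ := by simp only [δ]; linarith
      let ε : ℕ → ℝ := fun j => if j < K then δ else δ / j
      have hεp : ∀ k, 0 < ε k := by
        intro k
        simp only [ε]
        split_ifs with h
        · exact hδ
        · have : (0 : ℝ) < k := by
            have : 0 < k := by omega
            exact_mod_cast this
          positivity
      have hε1 : ∀ j, j < K → ∀ i, i ≤ j → δ ≤ ε i := by
        intro j hj i hi
        simp only [ε]
        rw [if_pos (lt_of_le_of_lt hi hj)]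
      have hε2 : ∀ j, K ≤ j → ∀ i, i ≤ j → δ / j ≤ ε i := by
        intro j hj i hi
        have hj1 : (1 : ℝ) ≤ j := by
          have : 1 ≤ j := by omega
          exact_mod_cast this
        simp only [ε]
        split_ifs with h
        · exact div_le_self hδ.le hj1
        · have hi1 : (0 : ℝ) < i := by
            have : 0 < i := by omega
            exact_mod_cast this
          apply div_le_div_of_nonneg_left hδ.le hi1
          exact_mod_cast hi
      have hlow : ∀ w : List (G ⊕ (ℕ × Bool)), ev y w = z → δ ≤ wt ρ ε w := by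
        intro w hw
        by_contra hlt
        rw [not_le] at hlt
        refine hL G ρ hρ.pn (U n) y t K (rU n) z (q i) hK4 (fun k => (htp k).le) htm'
          (fun k _ => hinv k) ?_ ?_ w ?_ ?_ ?_ hw
        · intro k hk j hj c hc
          have h6 := hcomj k j hj c hc
          exact ⟨h6.1.le, h6.2.le⟩
        · intro k hk h hh M hM
          exact hnl k n i (hK2.trans hk) (hK3.trans hk) h hh M hM
        · intro j hj
          have h1 := cnt_mul_le_wt hρ0 (fun j => (hεp j).le) (hε1 j hj) w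
          by_contra hne
          have h2 : (1 : ℝ) ≤ cnt j w := by
            have : 1 ≤ cnt j w := Nat.one_le_iff_ne_zero.mpr hne
            exact_mod_cast this
          nlinarith
        · intro j hj
          have h1 := cnt_mul_le_wt hρ0 (fun j => (hεp j).le) (hε2 j hj) w
          have hj0 : (0 : ℝ) < j := by
            have : 0 < j := by omega
            exact_mod_cast this
          have h2 : (cnt j w : ℝ) * (δ / j) < δ := lt_of_le_of_lt h1 hlt
          have h3 : (cnt j w : ℝ) < j := by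
            have h5 : (cnt j w : ℝ) * (δ / j) = ((cnt j w : ℝ) / j) * δ := by ring
            rw [h5] at h2
            have h6 : (cnt j w : ℝ) / j < 1 := by
              by_contra hcon
              rw [not_lt] at hcon
              nlinarith
            rwa [div_lt_one hj0] at h6
          have h4 : cnt j w < j := by exact_mod_cast h3
          omega
        · have h6 := rw_le_wt (ρ := ρ) (fun j => (hεp j).le) w
          have h7 : rw ρ w < c0 / 4 := lt_of_le_of_lt h6 hlt
          linarith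
      obtain ⟨N, hNP, hNρ, hNy, hNz⟩ := hW G ρ hρ.pn ε hεp y z δ hlow
      refine ⟨N, hNP, hNP.continuous_of_le hρ.pn hρ.cont hNρ, ?_, lt_of_lt_of_le hδ hNz⟩
      have h7 : Tendsto (fun k : ℕ => δ / (k : ℝ)) atTop (𝓝 0) :=
        tendsto_const_div_atTop_nhds_zero_nat δ
      refine tendsto_of_tendsto_of_tendsto_of_le_of_le' tendsto_const_nhds h7
        (Eventually.of_forall fun k => hNP.nonneg _) ?_
      filter_upwards [eventually_ge_atTop K] with k hk
      have h8 := hNy k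
      simp only [ε] at h8
      rwa [if_neg (not_lt.mpr hk)] at h8
  have hlim : Tendsto (fun k => ρ (y k)) atTop (𝓝 (ρ 1)) := (hρ.cont.tendsto 1).comp hy1
  rw [hρ.pn.one] at hlim
  obtain ⟨k, hk⟩ := (hlim.eventually (gt_mem_nhds he)).exists
  exact absurd (hyP k).1 (not_le.mpr hk)

end Pool.Agent.N709.UM
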